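import Pool.Agent.H74R2.WT.Stmts

set_option autoImplicit false

namespace H74R2.WT

theorem j1_lin (H : ℤ → ℝ) (μ : ℝ) (h : ∀ j, H j + μ ≤ H (j + 1)) :
    ∀ (n : ℕ) (j : ℤ), H j + n * μ ≤ H (j + n) := by
  intro n
  induction n with
  | zero => intro j; simp
  | succ n ih =>
    intro j
    have h1 := ih j
    have h2 := h (j + n)
    have e : j + ((n + 1 : ℕ) : ℤ) = j + n + 1 := by push_cast; ring
    rw [e]
    push_cast
    linarith

theorem j1_exists (H : ℤ → ℝ) (μ : ℝ) (hμ : 0 < μ) (h : ∀ j, H j + μ ≤ H (j + 1)) (t : ℝ) :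
    ∃! j : ℤ, H j ≤ t ∧ t < H (j + 1) := by
  have hlin := j1_lin H μ h
  have hmono : ∀ j k : ℤ, j ≤ k → H j ≤ H k := by
    intro j k hjk
    obtain ⟨n, rfl⟩ := Int.le.dest hjk
    have := hlin n j
    have h0 : 0 ≤ (n : ℝ) * μ := by positivity
    linarith
  obtain ⟨n, hn⟩ := exists_nat_gt ((|t| + |H 0|) / μ)
  rw [div_lt_iff₀ hμ] at hn
  have hne : H (-(n : ℤ)) ≤ t := by
    have h1 := hlin n (-(n : ℤ))
    rw [neg_add_cancel] at h1
    have h2 := le_abs_self (H 0)
    have h3 := neg_abs_le t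
    linarith
  have hbd : ∀ z : ℤ, H z ≤ t → z ≤ n := by
    intro z hz
    by_contra hlt
    have h1 : H ((n : ℕ) : ℤ) ≤ H z := hmono _ _ (by omega)
    have h2 := hlin n 0
    rw [zero_add] at h2
    have h3 := neg_abs_le (H 0)
    have h4 := le_abs_self t
    linarith
  obtain ⟨j, hj1, hj2⟩ := Int.exists_greatest_of_bdd (P := fun z => H z ≤ t)
    ⟨n, hbd⟩ ⟨_, hne⟩
  refine ⟨j, ⟨hj1, ?_⟩, ?_⟩
  · by_contra hlt
    have := hj2 (j + 1) (not_lt.1 hlt)
    omega
  · rintro k ⟨hk1, hk2⟩
    have h1 : k ≤ j := hj2 k hk1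
    by_contra hne'
    have h2 : k + 1 ≤ j := by omega
    have h3 := hmono _ _ h2
    have h4 : H j ≤ t := hj1
    linarith

theorem j1_floor (x p : ℝ) (hp : 0 < p) (m : ℤ) (h0 : 0 ≤ x - m * p) (h1 : x - m * p < p) :
    ⌊x / p⌋ = m := by
  rw [Int.floor_eq_iff]
  constructor
  · rw [le_div_iff₀ hp]; linarith
  · rw [div_lt_iff₀ hp]; linarith

theorem j1_floor' (x p : ℝ) (hp : 0 < p) : 0 ≤ x - ⌊x / p⌋ * p ∧ x - ⌊x / p⌋ * p < p := by
  have h1 := Int.floor_le (x / p)
  have h2 := Int.lt_floor_add_one (x / p)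
  rw [le_div_iff₀ hp] at h1
  rw [div_lt_iff₀ hp] at h2
  constructor <;> linarith

theorem t_J1 : T_J1 := by
  intro a b c d ha hd hbc s t
  rcases hbc with ⟨hb, hc⟩ | ⟨rfl, rfl⟩
  · have hp : 0 < a + c := by linarith
    set M : ℤ → ℤ := fun j => ⌊(s + j * c) / (a + c)⌋ with hM
    set H : ℤ → ℝ := fun j => (M j : ℝ) * b + ((j : ℝ) - M j) * d with hH
    have hr := fun j : ℤ => j1_floor' (s + j * c) (a + c) hp
    have hr' : ∀ j : ℤ, 0 ≤ s + j * c - M j * (a + c) ∧ s + j * c - M j * (a + c) < a + c := hr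
    have step1 : ∀ j : ℤ, s + j * c - M j * (a + c) < a → H (j + 1) = H j + d := by
      intro j hj
      have h1 : M (j + 1) = M j := by
        apply j1_floor _ _ hp
        · have := (hr' j).1; push_cast; linarith
        · push_cast; linarith
      simp only [hH]
      rw [h1]; push_cast; ring
    have step2 : ∀ j : ℤ, a ≤ s + j * c - M j * (a + c) → H (j + 1) = H j + b := by
      intro j hj
      have h1 : M (j + 1) = M j + 1 := by
        apply j1_floor _ _ hp
        · push_cast; linarith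
        · have := (hr' j).2; push_cast; linarith
      simp only [hH]
      rw [h1]; push_cast; ring
    have hstep : ∀ j, H j + min b d ≤ H (j + 1) := by
      intro j
      rcases lt_or_ge (s + j * c - M j * (a + c)) a with h | h
      · rw [step1 j h]; have := min_le_right b d; linarith
      · rw [step2 j h]; have := min_le_left b d; linarith
    obtain ⟨j, ⟨hj1, hj2⟩, hj3⟩ := j1_exists H (min b d) (lt_min hb hd) hstep t
    refine ⟨(M j, j - M j), ?_, ?_⟩
    · have e1 : s - (M j : ℝ) * a + ((j - M j : ℤ) : ℝ) * c = s + j * c - M j * (a + c) := by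
        push_cast; ring
      have e2 : t - (M j : ℝ) * b - ((j - M j : ℤ) : ℝ) * d = t - H j := by
        simp only [hH]; push_cast; ring
      simp only
      rw [e1, e2]
      rcases lt_or_ge (s + j * c - M j * (a + c)) a with h | h
      · left
        have := step1 j h
        exact ⟨⟨(hr' j).1, h⟩, by linarith, by linarith⟩
      · right
        have := step2 j h
        exact ⟨⟨h, (hr' j).2⟩, by linarith, by linarith⟩
    · rintro ⟨m1, m2⟩ hm
      simp only at hm
      have e1 : s - (m1 : ℝ) * a + (m2 : ℝ) * c = s + ((m1 + m2 : ℤ) : ℝ) * c - m1 * (a + c) := by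
        push_cast; ring
      rw [e1] at hm
      have hMm : M (m1 + m2) = m1 := by
        rcases hm with ⟨⟨h1, h2⟩, -⟩ | ⟨⟨h1, h2⟩, -⟩
        · exact j1_floor _ _ hp _ h1 (by linarith)
        · exact j1_floor _ _ hp _ (by linarith) h2
      have e2 : t - (m1 : ℝ) * b - (m2 : ℝ) * d = t - H (m1 + m2) := by
        simp only [hH]
        rw [hMm]; push_cast; ring
      rw [e2] at hm
      have hjm : m1 + m2 = j := by
        apply hj3
        rcases hm with ⟨⟨h1, h2⟩, h3, h4⟩ | ⟨⟨h1, h2⟩, h3, h4⟩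
        · have := step1 (m1 + m2) (by rw [hMm]; exact h2)
          exact ⟨by linarith, by linarith⟩
        · have := step2 (m1 + m2) (by rw [hMm]; exact h1)
          exact ⟨by linarith, by linarith⟩
      rw [← hjm, hMm]
      ext
      · rfl
      · simp
  · refine ⟨(⌊s / a⌋, ⌊t / d⌋), ?_, ?_⟩
    · left
      have h1 := j1_floor' s a ha
      have h2 := j1_floor' t d hd
      simp only
      exact ⟨⟨by linarith [h1.1], by linarith [h1.2]⟩, by linarith [h2.1], by linarith [h2.2]⟩
    · rintro ⟨m1, m2⟩ hm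
      simp only at hm
      rcases hm with ⟨⟨h1, h2⟩, h3, h4⟩ | ⟨⟨h1, h2⟩, -⟩
      · have e1 := j1_floor s a ha m1 (by linarith) (by linarith)
        have e2 := j1_floor t d hd m2 (by linarith) (by linarith)
        rw [e1, e2]
      · exfalso; linarith

end H74R2.WT
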