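import Pool.Agent.H74R2.WT.Stmts

set_option autoImplicit false

namespace H74R2.WT

/-! Task M: adjoin `√3`. -/

theorem M_uniq (F : Subfield ℝ) (h3 : Real.sqrt 3 ∉ F) (a b a' b' : ℝ) (ha : a ∈ F) (hb : b ∈ F)
    (ha' : a' ∈ F) (hb' : b' ∈ F) (h : a + b * Real.sqrt 3 = a' + b' * Real.sqrt 3) :
    a = a' ∧ b = b' := by
  have hbb : b = b' := by
    by_contra hne
    apply h3
    have h1 : b - b' ≠ 0 := sub_ne_zero.mpr hne
    have h2 : Real.sqrt 3 = (a' - a) / (b - b') := by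
      rw [eq_div_iff h1]
      linarith
    rw [h2]
    exact F.div_mem (F.sub_mem ha' ha) (F.sub_mem hb hb')
  refine ⟨?_, hbb⟩
  rw [hbb] at h
  linarith

theorem M_sq : Real.sqrt 3 * Real.sqrt 3 = 3 := Real.mul_self_sqrt (by norm_num)

/-- `F(√3)` -/
def M_K (F : Subfield ℝ) (h3 : Real.sqrt 3 ∉ F) : Subfield ℝ where
  carrier := {x | ∃ a ∈ F, ∃ b ∈ F, x = a + b * Real.sqrt 3}
  mul_mem' := by
    rintro x y ⟨a, ha, b, hb, rfl⟩ ⟨c, hc, d, hd, rfl⟩
    refine ⟨a * c + (b * d + b * d + b * d), F.add_mem (F.mul_mem ha hc)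
      (F.add_mem (F.add_mem (F.mul_mem hb hd) (F.mul_mem hb hd)) (F.mul_mem hb hd)),
      a * d + b * c, F.add_mem (F.mul_mem ha hd) (F.mul_mem hb hc), ?_⟩
    linear_combination (b * d) * M_sq
  one_mem' := ⟨1, F.one_mem, 0, F.zero_mem, by ring⟩
  add_mem' := by
    rintro x y ⟨a, ha, b, hb, rfl⟩ ⟨c, hc, d, hd, rfl⟩
    exact ⟨a + c, F.add_mem ha hc, b + d, F.add_mem hb hd, by ring⟩
  zero_mem' := ⟨0, F.zero_mem, 0, F.zero_mem, by ring⟩
  neg_mem' := by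
    rintro x ⟨a, ha, b, hb, rfl⟩
    exact ⟨-a, F.neg_mem ha, -b, F.neg_mem hb, by ring⟩
  inv_mem' := by
    rintro x ⟨a, ha, b, hb, rfl⟩
    by_cases h0 : a = 0 ∧ b = 0
    · rw [h0.1, h0.2]
      exact ⟨0, F.zero_mem, 0, F.zero_mem, by simp⟩
    · have hN : a + b * Real.sqrt 3 ≠ 0 := by
        intro h
        have := M_uniq F h3 a b 0 0 ha hb F.zero_mem F.zero_mem (by rw [h]; ring)
        exact h0 this
      have hN' : a - b * Real.sqrt 3 ≠ 0 := by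
        intro h
        have := M_uniq F h3 a (-b) 0 0 ha (F.neg_mem hb) F.zero_mem F.zero_mem (by linarith)
        exact h0 ⟨this.1, by linarith [this.2]⟩
      have hd : a * a - (b * b + b * b + b * b) = (a + b * Real.sqrt 3) * (a - b * Real.sqrt 3) := by
        linear_combination (b * b) * M_sq
      have hdF : a * a - (b * b + b * b + b * b) ∈ F := F.sub_mem (F.mul_mem ha ha)
        (F.add_mem (F.add_mem (F.mul_mem hb hb) (F.mul_mem hb hb)) (F.mul_mem hb hb))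
      refine ⟨a / (a * a - (b * b + b * b + b * b)), F.div_mem ha hdF,
        -b / (a * a - (b * b + b * b + b * b)), F.div_mem (F.neg_mem hb) hdF, ?_⟩
      rw [hd]
      field_simp
      ring

theorem M_spec (F : Subfield ℝ) (h3 : Real.sqrt 3 ∉ F) (x : M_K F h3) :
    ∃ p : ℝ × ℝ, p.1 ∈ F ∧ p.2 ∈ F ∧ (x : ℝ) = p.1 + p.2 * Real.sqrt 3 := by
  obtain ⟨a, ha, b, hb, h⟩ := x.2
  exact ⟨(a, b), ha, hb, h⟩

/-- conjugation, as a function -/
noncomputable def M_f (F : Subfield ℝ) (h3 : Real.sqrt 3 ∉ F) (x : M_K F h3) : ℝ :=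
  (M_spec F h3 x).choose.1 - (M_spec F h3 x).choose.2 * Real.sqrt 3

theorem M_f_eq (F : Subfield ℝ) (h3 : Real.sqrt 3 ∉ F) (x : M_K F h3) (a b : ℝ) (ha : a ∈ F)
    (hb : b ∈ F) (h : (x : ℝ) = a + b * Real.sqrt 3) : M_f F h3 x = a - b * Real.sqrt 3 := by
  obtain ⟨h1, h2, h4⟩ := (M_spec F h3 x).choose_spec
  have h5 := M_uniq F h3 _ _ a b h1 h2 ha hb (h4.symm.trans h)
  unfold M_f
  rw [h5.1, h5.2]

/-- conjugation -/
noncomputable def M_s (F : Subfield ℝ) (h3 : Real.sqrt 3 ∉ F) : M_K F h3 →+* ℝ where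
  toFun := M_f F h3
  map_one' := by
    rw [M_f_eq F h3 1 1 0 F.one_mem F.zero_mem (by simp)]
    simp
  map_zero' := by
    rw [M_f_eq F h3 0 0 0 F.zero_mem F.zero_mem (by simp)]
    simp
  map_mul' := by
    intro x y
    obtain ⟨⟨a, b⟩, ha, hb, hx⟩ := M_spec F h3 x
    obtain ⟨⟨c, d⟩, hc, hd, hy⟩ := M_spec F h3 y
    simp only at ha hb hx hc hd hy
    rw [M_f_eq F h3 x a b ha hb hx, M_f_eq F h3 y c d hc hd hy,
      M_f_eq F h3 (x * y) (a * c + (b * d + b * d + b * d)) (a * d + b * c)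
        (F.add_mem (F.mul_mem ha hc)
          (F.add_mem (F.add_mem (F.mul_mem hb hd) (F.mul_mem hb hd)) (F.mul_mem hb hd)))
        (F.add_mem (F.mul_mem ha hd) (F.mul_mem hb hc)) (by
          rw [Subfield.coe_mul, hx, hy]
          linear_combination (b * d) * M_sq)]
    linear_combination (-(b * d)) * M_sq
  map_add' := by
    intro x y
    obtain ⟨⟨a, b⟩, ha, hb, hx⟩ := M_spec F h3 x
    obtain ⟨⟨c, d⟩, hc, hd, hy⟩ := M_spec F h3 y
    simp only at ha hb hx hc hd hy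
    rw [M_f_eq F h3 x a b ha hb hx, M_f_eq F h3 y c d hc hd hy,
      M_f_eq F h3 (x + y) (a + c) (b + d) (F.add_mem ha hc) (F.add_mem hb hd) (by
          rw [Subfield.coe_add, hx, hy]
          ring)]
    ring

theorem t_M : T_M := by
  intro F h3
  have h : Real.sqrt 3 ∈ M_K F h3 := ⟨0, F.zero_mem, 1, F.one_mem, by ring⟩
  refine ⟨M_K F h3, h, M_s F h3, ?_, ?_⟩
  · intro x hx
    exact ⟨x, hx, 0, F.zero_mem, by ring⟩
  · show M_f F h3 ⟨Real.sqrt 3, h⟩ = - Real.sqrt 3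
    rw [M_f_eq F h3 ⟨Real.sqrt 3, h⟩ 0 1 F.zero_mem F.one_mem (by simp)]
    ring

end H74R2.WT
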