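import Pool.Agent.H74R2.WT.Main
import Pool.Agent.H204R2.WT.A
import Pool.Agent.H74R2.WT.P220.B
import Pool.Agent.H189R2.WT.C
import Pool.Agent.H289R3.WT.D1
import Pool.Agent.H48R2.WT.D2
import Pool.Agent.H296R3.WT.E1
import Pool.Agent.H595R2.WT.E2
import Pool.Agent.Helper844.WT.E3
import Pool.Agent.H7WT.E4
import Pool.Agent.H768R2.WT.F1
import Pool.Agent.H311R2.WT.F2
import Pool.Agent.H781R2.WT.F3
import Pool.Agent.H627R2.WT.G1
import Pool.Agent.H644R2.WT_G2
import Pool.Agent.H852R2.WT_G3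
import Pool.Agent.H158R2.WT_H
import Pool.Agent.H968.WTI.TI
import Pool.Agent.H74R2.WT.J1
import Pool.Agent.H520R2.WT.J2
import Pool.Agent.H179R2.WT.J3
import Pool.Agent.H368WT.K0
import Pool.Agent.H413R3.WT_K
import Pool.Agent.H553R3.WT_L
import Pool.Agent.H74R2.WT.M
import Pool.Agent.H965R3.WT_O
import Pool.Agent.H546R4.WT_S

set_option autoImplicit false

namespace H74R2.WT

end H74R2.WT
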