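import Pool.Agent.H74R2.WT.Stmts

set_option autoImplicit false

namespace H74R2.WT

/-- task N4: three pairwise non-isomorphic wallpaper groups with elements of order 4 (p4, p4m, p4g) -/
def T_N4 : Prop := ∃ G : Fin 3 → Subgroup (ℂ ≃ᵢ ℂ), (∀ i, IsWallpaper (G i)) ∧
  (∀ i, ∃ g ∈ G i, orderOf g = 4) ∧ (∀ i j, i ≠ j → IsEmpty (G i ≃* G j))

/-- task N3: three pairwise non-isomorphic wallpaper groups with elements of order 3 (p3, p6, p6m) -/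
def T_N3 : Prop := ∃ G : Fin 3 → Subgroup (ℂ ≃ᵢ ℂ), (∀ i, IsWallpaper (G i)) ∧
  (∀ i, ∃ g ∈ G i, orderOf g = 3) ∧ (∀ i j, i ≠ j → IsEmpty (G i ≃* G j))

end H74R2.WT
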