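import Pool.Agent.H74R2.WT.All
import Pool.Agent.H74R2.WT.Stmts2

set_option autoImplicit false

open MeasureTheory Set

namespace H74R2.WT

noncomputable section

/-- `K` is closed under `(a, b) ↦ √(a² + b²)` -/
def Pyth (K : Subfield ℝ) : Prop := ∀ a b : ℝ, a ∈ K → b ∈ K → Real.sqrt (a ^ 2 + b ^ 2) ∈ K

/-- the frontier of `P` lies in finitely many lines with directions `α z`, `z ≠ 0` with real and
imaginary part in `K` -/
def SidesK (K : Subfield ℝ) (α : ℂ) (P : Set ℂ) : Prop :=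
  ∃ s : Finset (ℂ × ℂ), (∀ q ∈ s, q.2.re ∈ K ∧ q.2.im ∈ K ∧ q.2 ≠ 0) ∧
    frontier P ⊆ {w | ∃ q ∈ s, ∃ t : ℝ, w = q.1 + t * (α * q.2)}

theorem sqrt_nat_mem {K : Subfield ℝ} (hK : Pyth K) (n : ℕ) : Real.sqrt n ∈ K := by
  induction n with
  | zero => simp [K.zero_mem]
  | succ n ih =>
    have := hK _ _ ih K.one_mem
    rw [Real.sq_sqrt (Nat.cast_nonneg n)] at this
    push_cast
    simpa using this

theorem exists_phi (K : Subfield ℝ) (x0 : ℝ) (h : x0 ≠ 0) :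
    ∃ φ : ℝ →+ ℝ, Semi K.subtype φ ∧ φ x0 ≠ 0 ∧ ∀ x, φ x ∈ K := by
  obtain ⟨L, hL⟩ : ∃ L : ℝ →ₗ[K] K, L x0 ≠ 0 := by
    by_contra hcon
    push Not at hcon
    exact h ((Module.forall_dual_apply_eq_zero_iff K x0).1 hcon)
  refine ⟨⟨⟨fun x => (L x : ℝ), by simp⟩, by intro x y; simp⟩, ?_, ?_, ?_⟩
  · intro k x
    have : L ((k : ℝ) * x) = k * L x := by
      have := L.map_smul k x
      simpa [Subfield.smul_def] using this
    show ((L ((k : ℝ) * x) : K) : ℝ) = _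
    rw [this]
    rfl
  · simpa using hL
  · intro x; exact (L x).2

/-- all polygons: both kinds of tilings force `3^{1/4} ∈ K` -/
theorem core2 (hK0 : T_K0) (hO : T_O) (hH : T_H) (hexch : P_exch) (hiso : P_iso) (hJ1 : T_J1)
    (hJ2 : T_J2) (hPAr : P_Ar) (hJ3 : T_J3) (hK4 : T_K4) (hK3 : T_K3) (hS : T_S)
    (K : Subfield ℝ) (hF : Pyth K) (P : Set ℂ) (hP : Region P) (hgd : Gd K P)
    (T T' : Set (Set ℂ)) (hT : IsTiling P T) (hT' : IsTiling P T') (hc : Coco (Sym T)) (hc' : Coco (Sym T'))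
    (h4 : ∃ g ∈ Sym T, orderOf g = 4) (h3 : ∃ g ∈ Sym T', orderOf g = 3) :
    Real.sqrt (Real.sqrt 3) ∈ K := by
  have m3 : Real.sqrt 3 ∈ K := by
    have := sqrt_nat_mem hF 3
    exact_mod_cast this
  have m2 : (2 : ℝ) ∈ K := by exact_mod_cast natCast_mem K 2
  have i1 : (Complex.I).re ∈ K := by simp [K.zero_mem]
  have i2 : (Complex.I).im ∈ K := by simp [K.one_mem]
  have j1 : e3.re ∈ K := by
    have : e3.re = 1 / 2 := rfl
    rw [this]
    exact K.div_mem K.one_mem m2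
  have j2 : e3.im ∈ K := by
    have : e3.im = Real.sqrt 3 / 2 := rfl
    rw [this]
    exact K.div_mem m3 m2
  obtain ⟨x, y, hx, hy, hxy⟩ := one_side hK0 hO hH hexch hiso hJ1 hJ2 hPAr hJ3 K K.subtype hF P hP hgd T hT
    Complex.I 0 le_rfl i1 i2 (by simp) (by simp) (by
      intro w h _
      have : Complex.I * (Complex.I * w) = -w := by
        rw [← mul_assoc, Complex.I_mul_I]; ring
      rw [this, ← tr_inv]
      exact (Sym T).inv_mem h) hS.1 (hK4 hK0 _ hc h4)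
  obtain ⟨x', y', hx', hy', hxy'⟩ := one_side hK0 hO hH hexch hiso hJ1 hJ2 hPAr hJ3 K K.subtype hF P hP hgd
    T' hT' e3 1 zero_le_one j1 j2 (by simp [e3]) e3_sq (by
      intro w h h'
      have : e3 * (e3 * w) = e3 * w + -w := by
        have := e3_sq
        rw [← mul_assoc, ← pow_two, this]
        push_cast
        ring
      rw [this, ← tr_mul, ← tr_inv]
      exact (Sym T').mul_mem h' ((Sym T').inv_mem h)) hS.2 (hK3 hK0 _ hc' h3)
  obtain ⟨φ, hφ, hφx, hφK⟩ := exists_phi K x hx.ne'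
  obtain ⟨N, hN, hN'⟩ := hxy φ hφ
  obtain ⟨M, hM, hM'⟩ := hxy' φ hφ
  have s1 : K.subtype ⟨(Complex.I).im, i2⟩ = 1 := by simp
  have s2 : K.subtype ⟨e3.im, j2⟩ = Real.sqrt 3 / 2 := by simp [e3]
  rw [s1, zero_mul, add_zero, one_mul] at hN'
  rw [s2, one_mul, map_add] at hM'
  have hNr : (0 : ℝ) < N := by exact_mod_cast hN
  have hMr : (0 : ℝ) < M := by exact_mod_cast hM
  set a := φ x
  set b := φ y
  set c := φ x'
  set d := φ y'
  have hr : 0 < a ^ 2 + b ^ 2 := by positivity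
  set r := Real.sqrt (a ^ 2 + b ^ 2) with hrdef
  have hrK : r ∈ K := hF _ _ (hφK x) (hφK y)
  have hr0 : 0 < r := Real.sqrt_pos.2 hr
  have hr2 : r ^ 2 = a ^ 2 + b ^ 2 := Real.sq_sqrt hr.le
  set s := Real.sqrt ((c + d / 2) ^ 2 + (Real.sqrt 3 * d / 2) ^ 2) with hsdef
  have hsK : s ∈ K := hF _ _ (K.add_mem (hφK x') (K.div_mem (hφK y') m2))
    (K.div_mem (K.mul_mem m3 (hφK y')) m2)
  have h33 : Real.sqrt 3 ^ 2 = 3 := Real.sq_sqrt (by norm_num)
  have hs2 : s ^ 2 = c * (c + d) + d * d := by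
    rw [hsdef, Real.sq_sqrt (by positivity)]
    nlinarith [h33]
  have hAr : 0 < Ar K.subtype φ P := by
    have h1 : 0 < (N : ℝ) * Ar K.subtype φ P := by
      rw [hN']; nlinarith
    exact (pos_iff_pos_of_mul_pos h1).1 hNr
  have hs0 : 0 < s := by
    have h1 : 0 < Real.sqrt 3 / 2 * s ^ 2 := by
      rw [hs2, ← hM']; positivity
    have h2 : 0 ≤ s := Real.sqrt_nonneg _
    rcases h2.lt_or_eq with h | h
    · exact h
    · rw [← h] at h1; simp at h1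
  -- `N √3 s² = 2 M r²`
  have hkey : (N : ℝ) * Real.sqrt 3 * s ^ 2 = 2 * M * r ^ 2 := by
    rw [hs2, hr2]
    have e1 : (M : ℝ) * (N * Ar K.subtype φ P) = N * (M * Ar K.subtype φ P) := by ring
    rw [hN', hM'] at e1
    linarith
  have hq : Real.sqrt (Real.sqrt 3) = Real.sqrt ((2 * M * N : ℕ) : ℝ) * r / (N * s) := by
    rw [Real.sqrt_eq_iff_mul_self_eq (Real.sqrt_nonneg _) (by positivity)]
    have e2 : Real.sqrt ((2 * M * N : ℕ) : ℝ) ^ 2 = 2 * M * N := by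
      rw [Real.sq_sqrt (Nat.cast_nonneg _)]; push_cast; ring
    have e4 : Real.sqrt ((2 * M * N : ℕ) : ℝ) * r / (N * s) * (Real.sqrt ((2 * M * N : ℕ) : ℝ) * r / (N * s)) =
        Real.sqrt ((2 * M * N : ℕ) : ℝ) ^ 2 * r ^ 2 / (N ^ 2 * s ^ 2) := by
      rw [div_mul_div_comm]; congr 1 <;> ring
    have e5 : (N : ℝ) ^ 2 * s ^ 2 ≠ 0 := by positivity
    first
    | rw [e4, e2, div_eq_iff e5]; linear_combination (-(N : ℝ)) * hkey
    | rw [e4, e2, eq_comm, div_eq_iff e5]; linear_combination (-(N : ℝ)) * hkey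
    | rw [e4, e2, eq_div_iff e5]; linear_combination (N : ℝ) * hkey
  rw [hq]
  exact K.div_mem (K.mul_mem (sqrt_nat_mem hF _) hrK) (K.mul_mem (natCast_mem K N) hsK)

/-- `P` cannot realize the wallpaper groups of both kinds, misses three wallpaper groups, and is not
all-purpose -/
def Concl3 (P : Set ℂ) : Prop :=
  (∀ T T' : Set (Set ℂ), IsTiling P T → IsTiling P T' → Coco (Sym T) → Coco (Sym T') →
    (∃ g ∈ Sym T, orderOf g = 4) → (∃ g ∈ Sym T', orderOf g = 3) → False) ∧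
  (∃ G : Fin 3 → Subgroup (ℂ ≃ᵢ ℂ), (∀ i, IsWallpaper (G i)) ∧
    (∀ i j, i ≠ j → IsEmpty (G i ≃* G j)) ∧ ∀ i, ¬ Realizes P (G i)) ∧
  ¬ AllPurpose P

theorem order_transfer {P : Set ℂ} {G : Subgroup (ℂ ≃ᵢ ℂ)} {n : ℕ} (h : Realizes P G)
    (hg : ∃ g ∈ G, orderOf g = n) :
    ∃ T : Set (Set ℂ), IsTiling P T ∧ Coco (Sym T) ∧ ∃ g ∈ Sym T, orderOf g = n := by
  obtain ⟨T, hT, hW, ⟨f⟩⟩ := h
  obtain ⟨g, hg, o⟩ := hg
  refine ⟨T, hT, hW.1, (f.symm ⟨g, hg⟩ : Sym T), (f.symm ⟨g, hg⟩).2, ?_⟩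
  rw [Subgroup.orderOf_coe, MulEquiv.orderOf_eq, Subgroup.orderOf_mk, o]

theorem concl3_of (hN4 : T_N4) (hN3 : T_N3) (P : Set ℂ)
    (h : ∀ T T' : Set (Set ℂ), IsTiling P T → IsTiling P T' → Coco (Sym T) → Coco (Sym T') →
    (∃ g ∈ Sym T, orderOf g = 4) → (∃ g ∈ Sym T', orderOf g = 3) → False) : Concl3 P := by
  have h2 : ∃ G : Fin 3 → Subgroup (ℂ ≃ᵢ ℂ), (∀ i, IsWallpaper (G i)) ∧
    (∀ i j, i ≠ j → IsEmpty (G i ≃* G j)) ∧ ∀ i, ¬ Realizes P (G i) := by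
    obtain ⟨G4, w4, o4, n4⟩ := hN4
    obtain ⟨G3, w3, o3, n3⟩ := hN3
    by_cases hc : ∃ i, Realizes P (G4 i)
    · obtain ⟨i, hi⟩ := hc
      refine ⟨G3, w3, n3, ?_⟩
      intro j hj
      obtain ⟨T, a1, a2, a3⟩ := order_transfer hi (o4 i)
      obtain ⟨T', b1, b2, b3⟩ := order_transfer hj (o3 j)
      exact h T T' a1 b1 a2 b2 a3 b3
    · push Not at hc
      exact ⟨G4, w4, n4, hc⟩
  refine ⟨h, h2, ?_⟩
  intro hall
  obtain ⟨G, w, -, hn⟩ := h2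
  exact hn 0 (hall _ (w 0))

theorem norm_stepK (K : Subfield ℝ) (α : ℂ) (hα : α ≠ 0) (P : Set ℂ) (hP : Region P) (hs : SidesK K α P) :
    ∃ k : ℂ ≃ᵢ ℂ, Gd K ((fun z => k z) '' P) := by
  have hn : ‖α‖ ≠ 0 := by simpa using hα
  have hnC : (‖α‖ : ℂ) ≠ 0 := by exact_mod_cast hn
  set ε : ℂ := (starRingEnd ℂ) α / ‖α‖ with hε
  have hε1 : ‖ε‖ = 1 := by
    rw [hε, norm_div, Complex.norm_conj, Complex.norm_real, Real.norm_eq_abs, abs_norm, div_self hn]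
  have hεα : ε * α = ‖α‖ := by
    rw [hε, div_mul_eq_mul_div, mul_comm, Complex.mul_conj, Complex.normSq_eq_norm_sq]
    push_cast
    field_simp
  refine ⟨rotI ε hε1, ?_, ?_⟩
  · exact (hP.image _).cpt.isBounded
  obtain ⟨s, hs1, hs2⟩ := hs
  classical
  refine ⟨s.image (fun q => (q.2.im, -q.2.re,
    q.2.im * (ε * q.1).re + -q.2.re * (ε * q.1).im)), ?_, ?_⟩
  · intro p hp
    obtain ⟨q, hq, rfl⟩ := Finset.mem_image.1 hp
    obtain ⟨h1, h2, h3⟩ := hs1 q hq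
    refine ⟨h2, K.neg_mem h1, ?_⟩
    by_contra h
    push Not at h
    apply h3
    apply Complex.ext
    · simpa using h.2
    · simpa using h.1
  · have e1 : frontier ((fun z => rotI ε hε1 z) '' P) = (fun z => rotI ε hε1 z) '' frontier P :=
      ((rotI ε hε1).toHomeomorph.image_frontier P).symm
    rw [e1]
    rintro _ ⟨w, hw, rfl⟩
    obtain ⟨q, hq, t, ht⟩ := hs2 hw
    refine ⟨_, Finset.mem_image_of_mem _ hq, ?_⟩
    have h1 : rotI ε hε1 w = ε * q.1 + ((t * ‖α‖ : ℝ) : ℂ) * q.2 := by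
      rw [rotI_apply, ht, mul_add]
      push_cast
      linear_combination (t * q.2 : ℂ) * hεα
    simp only [h1, Complex.add_re, Complex.add_im, Complex.re_ofReal_mul, Complex.im_ofReal_mul]
    ring

/-- all facts about tilings that have been proved in the other files -/
structure Facts : Prop where
  exch : P_exch
  iso : P_iso
  ar : P_Ar

theorem facts : Facts := by
  have hD : T_D := t_D2 t_D1
  have hrep : P_rep := t_E2 hD
  have hPAr : P_Ar := t_E3 t_C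
  have hadd : P_add := t_E4 hrep hPAr t_C
  have hG1 := t_G1 hrep hPAr
  have hswap : P_swap := t_F3 (t_E1 hD) hadd hPAr t_F1 t_F2 t_G2.1
  exact ⟨t_I hadd hG1.2.1 t_G2, t_G3 hswap hG1.1 hG1.2.1 hG1.2.2 t_G2.1, hPAr⟩

theorem both_imp (hf : Facts) (K : Subfield ℝ) (hF : Pyth K) (P : Set ℂ) (hP : Region P)
    (hk : ∃ k : ℂ ≃ᵢ ℂ, Gd K ((fun z => k z) '' P))
    (T T' : Set (Set ℂ)) (hT : IsTiling P T) (hT' : IsTiling P T') (hc : Coco (Sym T)) (hc' : Coco (Sym T'))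
    (h4 : ∃ g ∈ Sym T, orderOf g = 4) (h3 : ∃ g ∈ Sym T', orderOf g = 3) :
    Real.sqrt (Real.sqrt 3) ∈ K := by
  obtain ⟨k, hk⟩ := hk
  exact core2 t_K0 t_O t_H hf.exch hf.iso t_J1 t_J2 hf.ar t_J3 t_K4 t_K3 t_S K hF _ (hP.image k) hk T T'
    (hT.congr k) (hT'.congr k) hc hc' h4 h3

/-- (C) -/
theorem main_pyth (hN4 : T_N4) (hN3 : T_N3) (K : Subfield ℝ) (hK : Pyth K)
    (h : Real.sqrt (Real.sqrt 3) ∉ K) (α : ℂ) (hα : α ≠ 0) (P : Set ℂ) (hP : Region P)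
    (hs : SidesK K α P) : Concl3 P := by
  apply concl3_of hN4 hN3
  intro T T' a b c d e f
  exact h (both_imp facts K hK P hP (norm_stepK K α hα P hP hs) T T' a b c d e f)

theorem main_sigma (hN4 : T_N4) (hN3 : T_N3)
    (K : Subfield ℝ) (h3 : Real.sqrt 3 ∈ K) (σ : K →+* ℝ) (hσ : σ ⟨Real.sqrt 3, h3⟩ = - Real.sqrt 3)
    (α : ℂ) (hα : α ≠ 0) (P : Set ℂ) (hP : Region P) (hs : Sides K α P) : Concl3 P := by
  obtain ⟨K', σ', hF, hKK, hz⟩ := t_A K h3 σ hσ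
  apply concl3_of hN4 hN3
  intro T T' a b c d e f
  have hmem := both_imp facts K' hF.pyth P hP (norm_step K K' hKK hz α hα P hP hs) T T' a b c d e f
  have h1 : (⟨Real.sqrt (Real.sqrt 3), hmem⟩ : K') * ⟨Real.sqrt (Real.sqrt 3), hmem⟩ = ⟨Real.sqrt 3, hF.s3⟩ := by
    apply Subtype.ext
    exact Real.mul_self_sqrt (Real.sqrt_nonneg 3)
  have h2 := congrArg σ' h1
  rw [map_mul, hF.neg hF.s3] at h2
  have h4 : 0 < Real.sqrt 3 := by positivity
  nlinarith [mul_self_nonneg (σ' ⟨Real.sqrt (Real.sqrt 3), hmem⟩)]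

/-- (D) -/
theorem main_field (hN4 : T_N4) (hN3 : T_N3)
    (F : Subfield ℝ) (hF : Real.sqrt 3 ∉ F) (α : ℂ) (hα : α ≠ 0) (P : Set ℂ) (hP : Region P)
    (hs : Sides (Subfield.closure (insert (Real.sqrt 3) (F : Set ℝ))) α P) : Concl3 P := by
  obtain ⟨K, h, σ, hFK, hσ⟩ := t_M F hF
  refine main_sigma hN4 hN3 K h σ hσ α hα P hP ?_
  obtain ⟨s, hs1, hs2⟩ := hs
  refine ⟨s, ?_, hs2⟩
  intro q hq
  obtain ⟨ζ, z, n, hn0, hζ, hz1, hz2, hz0, hd⟩ := hs1 q hq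
  have hle : Subfield.closure (insert (Real.sqrt 3) (F : Set ℝ)) ≤ K := by
    rw [Subfield.closure_le]
    exact insert_subset h hFK
  exact ⟨ζ, z, n, hn0, hζ, hle hz1, hle hz2, hz0, hd⟩

theorem sqrt3_notin_bot : Real.sqrt 3 ∉ (⊥ : Subfield ℝ) := by
  intro h
  have hirr : Irrational (Real.sqrt 3) := by
    have := Nat.Prime.irrational_sqrt (show Nat.Prime 3 by norm_num)
    exact_mod_cast this
  apply hirr
  have hle : (⊥ : Subfield ℝ) ≤ (algebraMap ℚ ℝ).fieldRange := bot_le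
  obtain ⟨q, hq⟩ := hle h
  exact ⟨q, by simpa using hq⟩

/-- (A) all sides have directions `α ζ` with `ζ` a root of unity: polygons whose angles are rational
multiples of `π` -/
theorem main_rational_angles (hN4 : T_N4) (hN3 : T_N3) (α : ℂ) (hα : α ≠ 0) (P : Set ℂ)
    (hP : Region P) (s : Finset (ℂ × ℂ)) (hs1 : ∀ q ∈ s, ∃ n : ℕ, 0 < n ∧ q.2 ^ n = 1)
    (hs2 : frontier P ⊆ {w | ∃ q ∈ s, ∃ t : ℝ, w = q.1 + t * (α * q.2)}) : Concl3 P := by
  refine main_field hN4 hN3 ⊥ sqrt3_notin_bot α hα P hP ?_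
  classical
  refine ⟨s.image (fun q => (q.1, α * q.2)), ?_, ?_⟩
  · intro p hp
    obtain ⟨q, hq, rfl⟩ := Finset.mem_image.1 hp
    obtain ⟨n, hn, hz⟩ := hs1 q hq
    exact ⟨q.2, 1, n, hn, hz, by simpa using Subfield.one_mem _, by simpa using Subfield.zero_mem _,
      one_ne_zero, by simp⟩
  · intro w hw
    obtain ⟨q, hq, t, ht⟩ := hs2 hw
    exact ⟨_, Finset.mem_image_of_mem _ hq, t, ht⟩

/-- (B) polygons with vertices in `F × F` -/
theorem main_vertices (hN4 : T_N4) (hN3 : T_N3) (F : Subfield ℝ) (hF : Real.sqrt 3 ∉ F)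
    (P : Set ℂ) (hP : Region P) (s : Finset (ℂ × ℂ))
    (hs1 : ∀ q ∈ s, q.1.re ∈ F ∧ q.1.im ∈ F ∧ q.2.re ∈ F ∧ q.2.im ∈ F)
    (hs2 : frontier P ⊆ ⋃ q ∈ s, segment ℝ q.1 q.2) : Concl3 P := by
  refine main_field hN4 hN3 F hF 1 one_ne_zero P hP ?_
  have hle : F ≤ Subfield.closure (insert (Real.sqrt 3) (F : Set ℝ)) := fun x hx =>
    Subfield.subset_closure (mem_insert_of_mem _ hx)
  classical
  refine ⟨s.image (fun q => (q.1, if q.2 = q.1 then 1 else q.2 - q.1)), ?_, ?_⟩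
  · intro p hp
    obtain ⟨q, hq, rfl⟩ := Finset.mem_image.1 hp
    obtain ⟨h1, h2, h3, h4⟩ := hs1 q hq
    by_cases h : q.2 = q.1
    · exact ⟨1, 1, 1, one_pos, by simp, by simpa using Subfield.one_mem _, by simpa using Subfield.zero_mem _,
        one_ne_zero, by simp [h]⟩
    · exact ⟨1, q.2 - q.1, 1, one_pos, by simp, by simpa using hle (F.sub_mem h3 h1),
        by simpa using hle (F.sub_mem h4 h2), sub_ne_zero.2 h, by simp [h]⟩
  · intro w hw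
    have := hs2 hw
    simp only [mem_iUnion, exists_prop] at this
    obtain ⟨q, hq, hw'⟩ := this
    rw [segment_eq_image'] at hw'
    obtain ⟨t, -, rfl⟩ := hw'
    by_cases h : q.2 = q.1
    · exact ⟨_, Finset.mem_image_of_mem _ hq, 0, by simp [h]⟩
    · exact ⟨_, Finset.mem_image_of_mem _ hq, t, by simp [h]⟩

end

end H74R2.WT
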