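import Pool.Agent.H74R2.WT.Stmts

set_option autoImplicit false

open MeasureTheory Set

namespace H74R2.WT

noncomputable section

theorem tr_apply (v z : ℂ) : tr v z = z + v := by
  simp [tr]

theorem tr_mul (v w : ℂ) : tr v * tr w = tr (v + w) := by
  ext z
  simp only [IsometryEquiv.mul_apply, tr_apply]
  ring

theorem tr_inv (v : ℂ) : (tr v)⁻¹ = tr (-v) := by
  rw [inv_eq_iff_mul_eq_one, tr_mul]
  ext z
  simp [tr_apply]

theorem tr_sym_iff {T : Set (Set ℂ)} {v : ℂ} (h : tr v ∈ Sym T) (A : Set ℂ) :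
    A ∈ T ↔ (fun z => z + v) '' A ∈ T := by
  obtain ⟨h1, h2⟩ := h
  constructor
  · intro hA
    have := h1 A hA
    simpa only [tr_apply] using this
  · intro hA
    have := h2 _ hA
    rw [tr_inv, image_image] at this
    simpa only [tr_apply, add_neg_cancel_right, image_id'] using this

/-- change of the prototile by an isometry -/
theorem IsTiling.congr {P : Set ℂ} {T : Set (Set ℂ)} (h : IsTiling P T) (k : ℂ ≃ᵢ ℂ) :
    IsTiling ((fun z => k z) '' P) T := by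
  refine ⟨?_, h.cover, h.disj⟩
  intro A hA
  obtain ⟨g, rfl⟩ := h.tile A hA
  refine ⟨g * k⁻¹, ?_⟩
  rw [image_image]
  congr 1
  funext z
  simp [IsometryEquiv.mul_apply]

theorem image_iso_image (k : ℂ ≃ᵢ ℂ) (B : Set ℂ) : (fun z => k z) '' ((fun z => k⁻¹ z) '' B) = B := by
  rw [image_image]
  convert image_id' B using 2
  simp

theorem image_iso_image' (k : ℂ ≃ᵢ ℂ) (B : Set ℂ) : (fun z => k⁻¹ z) '' ((fun z => k z) '' B) = B := by
  rw [image_image]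
  convert image_id' B using 2
  simp

/-- moving a tiling by an isometry -/
theorem IsTiling.move {P : Set ℂ} {T : Set (Set ℂ)} (h : IsTiling P T) (k : ℂ ≃ᵢ ℂ) :
    IsTiling P {B | (fun z => k z) '' B ∈ T} := by
  refine ⟨?_, ?_, ?_⟩
  · intro B hB
    obtain ⟨g, hg⟩ := h.tile _ hB
    refine ⟨k⁻¹ * g, ?_⟩
    rw [← image_iso_image' k B]
    simp only [IsometryEquiv.mul_apply]
    rw [← image_image (fun z => k⁻¹ z) (fun z => g z), ← hg, image_iso_image' k B]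
  · apply eq_univ_of_forall
    intro z
    have : k z ∈ ⋃₀ T := by rw [h.cover]; trivial
    obtain ⟨A, hA, hz⟩ := this
    refine ⟨(fun z => k⁻¹ z) '' A, ?_, ?_⟩
    · show (fun z => k z) '' ((fun z => k⁻¹ z) '' A) ∈ T
      rw [image_iso_image]; exact hA
    · exact ⟨k z, hz, by simp⟩
  · intro A hA B hB hne
    have hne' : (fun z => k z) '' A ≠ (fun z => k z) '' B := by
      intro e
      apply hne
      rw [← image_iso_image' k A, e, image_iso_image' k B]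
    have := h.disj hA hB hne'
    have e1 : ∀ C : Set ℂ, interior ((fun z => k z) '' C) = (fun z => k z) '' interior C := fun C =>
      (k.toHomeomorph.image_interior C).symm
    have this' : Disjoint (interior ((fun z => k z) '' A)) (interior ((fun z => k z) '' B)) := this
    rw [e1, e1] at this'
    exact (Set.disjoint_image_iff k.injective).1 this'

theorem Region.image {P : Set ℂ} (h : Region P) (k : ℂ ≃ᵢ ℂ) : Region ((fun z => k z) '' P) := by
  have e1 : ∀ C : Set ℂ, interior ((fun z => k z) '' C) = (fun z => k z) '' interior C := fun C =>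
      (k.toHomeomorph.image_interior C).symm
  have e2 : ∀ C : Set ℂ, closure ((fun z => k z) '' C) = (fun z => k z) '' closure C := fun C =>
      (k.toHomeomorph.image_closure C).symm
  refine ⟨h.cpt.image k.continuous, ?_, ?_⟩
  · rw [e1]; exact h.ne.image _
  · rw [e1, e2]; exact image_mono h.reg

/-- rotation by a unit complex number as an isometry -/
def rotI (ε : ℂ) (h : ‖ε‖ = 1) : ℂ ≃ᵢ ℂ :=
  (rotation (⟨ε, by simpa [Submonoid.unitSphere] using h⟩ : Circle)).toIsometryEquiv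

theorem rotI_apply (ε : ℂ) (h : ‖ε‖ = 1) (z : ℂ) : rotI ε h z = ε * z := by
  simp [rotI, rotation_apply]

theorem pow_mem {G : Subgroup (ℂ ≃ᵢ ℂ)} {e : ℂ}
    (hrot : ∀ w, tr w ∈ G → tr (e * w) ∈ G → tr (e * (e * w)) ∈ G) {v : ℂ}
    (h1 : tr v ∈ G) (h2 : tr (e * v) ∈ G) (k : ℕ) : tr (e ^ k * v) ∈ G ∧ tr (e ^ (k + 1) * v) ∈ G := by
  induction k with
  | zero => simpa using ⟨h1, h2⟩
  | succ k ih =>
    refine ⟨ih.2, ?_⟩
    have := hrot _ ih.1 (by rw [← mul_assoc, ← pow_succ']; exact ih.2)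
    convert this using 2
    ring

theorem one_side (hK0 : T_K0) (hO : T_O) (hH : T_H) (hexch : P_exch) (hiso : P_iso) (hJ1 : T_J1)
    (hJ2 : T_J2) (hPAr : P_Ar) (hJ3 : T_J3)
    (K : Subfield ℝ) (σ : K →+* ℝ)
    (hpy : ∀ a b : ℝ, a ∈ K → b ∈ K → Real.sqrt (a ^ 2 + b ^ 2) ∈ K) (P : Set ℂ) (hP : Region P) (hgd : Gd K P)
    (T : Set (Set ℂ)) (hT : IsTiling P T) (e : ℂ) (δ : ℝ) (hδ : 0 ≤ δ) (he1 : e.re ∈ K) (he2 : e.im ∈ K)
    (he3 : 0 < e.im) (hee : e ^ 2 = -1 + δ * e)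
    (hrot : ∀ w, tr w ∈ Sym T → tr (e * w) ∈ Sym T → tr (e * (e * w)) ∈ Sym T)
    (hsec : ∀ v : ℂ, v ≠ 0 → ∃ (k : ℕ) (x y : ℝ), 0 < x ∧ 0 ≤ y ∧ e ^ k * v = x + y * e)
    (hv : ∃ v : ℂ, v ≠ 0 ∧ tr v ∈ Sym T ∧ tr (e * v) ∈ Sym T) :
    ∃ x y : ℝ, 0 < x ∧ 0 ≤ y ∧ ∀ φ : ℝ →+ ℝ, Semi σ φ → ∃ N : ℕ, 0 < N ∧
      N * Ar σ φ P = σ ⟨e.im, he2⟩ * (φ x * φ (x + δ * y) + φ y * φ y) := by
  obtain ⟨v, hv0, hv1, hv2⟩ := hv
  obtain ⟨ε, hε, hcl⟩ := hH hK0 hO K hpy P T hP hgd hT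
  have hεn : ε ≠ 0 := by
    intro h; rw [h] at hε; simp at hε
  have hεc : ε * (starRingEnd ℂ) ε = 1 := by
    rw [Complex.mul_conj, Complex.normSq_eq_norm_sq, hε]; simp
  set v' : ℂ := (starRingEnd ℂ) ε * v with hv'
  have hv'0 : v' ≠ 0 := by
    intro h
    apply hv0
    have : ε * v' = v := by rw [hv', ← mul_assoc, hεc, one_mul]
    rw [← this, h, mul_zero]
  obtain ⟨k, x, y, hx, hy, hxy⟩ := hsec v' hv'0
  refine ⟨x, y, hx, hy, ?_⟩
  intro φ hφ
  -- the moved tiling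
  set T1 : Set (Set ℂ) := {B | (fun z => rotI ε hε z) '' B ∈ T} with hT1
  have hTil : IsTiling P T1 := hT.move (rotI ε hε)
  obtain ⟨t1, t2, t3, t4, D, t5⟩ := hO P T1 hP hTil
  have hlat := pow_mem hrot hv1 hv2 k
  -- translation vectors
  have key : ∀ w : ℂ, tr (ε * w) ∈ Sym T → ∀ A : Set ℂ, A ∈ T1 ↔ (fun z => z + w) '' A ∈ T1 := by
    intro w hw A
    have h1 := tr_sym_iff hw ((fun z => rotI ε hε z) '' A)
    have h2 : (fun z => z + ε * w) '' ((fun z => rotI ε hε z) '' A) =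
        (fun z => rotI ε hε z) '' ((fun z => z + w) '' A) := by
      rw [image_image, image_image]
      congr 1
      funext z
      rw [rotI_apply, rotI_apply]
      ring
    rw [h2] at h1
    exact h1
  have hw1 : ε * (x + y * e) = e ^ k * v := by
    rw [← hxy, hv']
    linear_combination (e ^ k * v) * hεc
  have hw2 : ε * (-y + (x + δ * y : ℝ) * e) = e ^ (k + 1) * v := by
    have : (-y + (x + δ * y : ℝ) * e : ℂ) = e * (x + y * e) := by
      push_cast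
      linear_combination (-y : ℂ) * hee
    rw [this, pow_succ']
    rw [mul_left_comm, hw1, mul_assoc]
  have hr : (0 < y ∧ 0 < y) ∨ (y = 0 ∧ y = 0) := by
    rcases hy.lt_or_eq with h | h
    · exact Or.inl ⟨h, h⟩
    · exact Or.inr ⟨h.symm, h.symm⟩
  have hd : 0 < x + δ * y := by positivity
  obtain ⟨hG, hArF⟩ := hJ2 hPAr K σ φ hφ x y y (x + δ * y) e he1 he2 he3 hx hd hr
  have huniq := hJ3 hJ1 x y y (x + δ * y) e he3 hx hd hr
  obtain ⟨N, hN, hAr⟩ := hexch K σ φ hφ T1 (Ar σ φ P) D (x + y * e) (-y + (x + δ * y : ℝ) * e)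
    (F0 x y y (x + δ * y) e) t1 (by
      intro B hB
      refine ⟨t4 B hB, ?_⟩
      obtain ⟨u, hu, b, hc⟩ := hcl _ hB
      have hc' : Cong P B u ((starRingEnd ℂ) ε * b) := by
        have hB' : B = (fun z => (starRingEnd ℂ) ε * z) '' ((fun z => rotI ε hε z) '' B) := by
          rw [image_image]
          have : (fun z => (starRingEnd ℂ) ε * (rotI ε hε z)) = id := by
            funext z
            rw [rotI_apply, id, ← mul_assoc, mul_comm _ ε, hεc, one_mul]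
          rw [this, image_id]
        rcases hc with hc | hc
        · left
          rw [hB', hc, image_image]
          congr 1
          funext z
          linear_combination (u * z) * hεc
        · right
          rw [hB', hc, image_image]
          congr 1
          funext z
          linear_combination (u * (starRingEnd ℂ) z) * hεc
      exact hiso K σ φ hφ P B u _ hgd hu hc') hTil.cover hTil.disj t3 t2 t5
      (key _ (by rw [hw1]; exact hlat.1)) (key _ (by rw [hw2]; exact hlat.2)) hG huniq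
  refine ⟨N, hN, ?_⟩
  rw [← hAr, hArF]

end

end H74R2.WT

namespace H74R2.WT

noncomputable section

theorem e3_sq : e3 ^ 2 = -1 + ((1 : ℝ) : ℂ) * e3 := by
  have h3 : Real.sqrt 3 * Real.sqrt 3 = 3 := Real.mul_self_sqrt (by norm_num)
  apply Complex.ext
  · simp [e3, pow_two]
    nlinarith [h3]
  · simp [e3, pow_two]
    ring

/-- the prototile is normalized (its sides have directions in `K[i]`) -/
theorem core (hB : T_B) (hK0 : T_K0) (hO : T_O) (hH : T_H) (hexch : P_exch) (hiso : P_iso) (hJ1 : T_J1)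
    (hJ2 : T_J2) (hPAr : P_Ar) (hJ3 : T_J3) (hK4 : T_K4) (hK3 : T_K3) (hS : T_S)
    (K : Subfield ℝ) (σ : K →+* ℝ) (hF : Fld K σ) (P : Set ℂ) (hP : Region P) (hgd : Gd K P)
    (T T' : Set (Set ℂ)) (hT : IsTiling P T) (hT' : IsTiling P T') (hc : Coco (Sym T)) (hc' : Coco (Sym T'))
    (h4 : ∃ g ∈ Sym T, orderOf g = 4) (h3 : ∃ g ∈ Sym T', orderOf g = 3) : False := by
  have i1 : (Complex.I).re ∈ K := by simp [K.zero_mem]
  have i2 : (Complex.I).im ∈ K := by simp [K.one_mem]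
  have j1 : e3.re ∈ K := by
    have : e3.re = 1 / 2 := rfl
    rw [this]
    exact K.div_mem K.one_mem (by exact_mod_cast natCast_mem K 2)
  have j2 : e3.im ∈ K := by
    have : e3.im = Real.sqrt 3 / 2 := rfl
    rw [this]
    exact K.div_mem hF.s3 (by exact_mod_cast natCast_mem K 2)
  obtain ⟨x, y, hx, hy, hxy⟩ := one_side hK0 hO hH hexch hiso hJ1 hJ2 hPAr hJ3 K σ hF.pyth P hP hgd T hT
    Complex.I 0 le_rfl i1 i2 (by simp) (by simp) (by
      intro w h _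
      have : Complex.I * (Complex.I * w) = -w := by
        rw [← mul_assoc, Complex.I_mul_I]; ring
      rw [this, ← tr_inv]
      exact (Sym T).inv_mem h) hS.1 (hK4 hK0 _ hc h4)
  obtain ⟨x', y', hx', hy', hxy'⟩ := one_side hK0 hO hH hexch hiso hJ1 hJ2 hPAr hJ3 K σ hF.pyth P hP hgd T' hT'
    e3 1 zero_le_one j1 j2 (by simp [e3]) e3_sq (by
      intro w h h'
      have : e3 * (e3 * w) = e3 * w + -w := by
        have := e3_sq
        rw [← mul_assoc, ← pow_two, this]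
        push_cast
        ring
      rw [this, ← tr_mul, ← tr_inv]
      exact (Sym T').mul_mem h' ((Sym T').inv_mem h)) hS.2 (hK3 hK0 _ hc' h3)
  obtain ⟨φ, hφ, hφx⟩ := hB K σ x hx.ne'
  obtain ⟨N, hN, hN'⟩ := hxy φ hφ
  obtain ⟨M, hM, hM'⟩ := hxy' φ hφ
  have s1 : σ ⟨(Complex.I).im, i2⟩ = 1 := by
    have : (⟨(Complex.I).im, i2⟩ : K) = 1 := by
      apply Subtype.ext; simp
    rw [this, map_one]
  have s2 : σ ⟨e3.im, j2⟩ = - (Real.sqrt 3 / 2) := by
    have : (⟨e3.im, j2⟩ : K) = ⟨Real.sqrt 3, hF.s3⟩ / 2 := by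
      apply Subtype.ext
      have h2 : ((2 : K) : ℝ) = 2 := rfl
      show Real.sqrt 3 / 2 = ((⟨Real.sqrt 3, hF.s3⟩ / 2 : K) : ℝ)
      rw [Subfield.coe_div, h2]
    rw [this, map_div₀, hF.neg hF.s3, map_ofNat]
    ring
  rw [s1, zero_mul, add_zero, one_mul] at hN'
  rw [s2, one_mul] at hM'
  have hpos : 0 < Ar σ φ P := by
    have h1 : 0 < (N : ℝ) * Ar σ φ P := by
      rw [hN']
      have := mul_self_pos.2 hφx
      nlinarith [mul_self_nonneg (φ y)]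
    exact (pos_iff_pos_of_mul_pos h1).1 (by exact_mod_cast hN)
  have h2 : (M : ℝ) * Ar σ φ P ≤ 0 := by
    rw [hM', map_add]
    have h3 : 0 < Real.sqrt 3 := by positivity
    have h4 : 0 ≤ φ x' * (φ x' + φ y') + φ y' * φ y' := by
      nlinarith [mul_self_nonneg (φ x' + φ y'), mul_self_nonneg (φ x'), mul_self_nonneg (φ y')]
    nlinarith
  have h5 : 0 < (M : ℝ) * Ar σ φ P := mul_pos (by exact_mod_cast hM) hpos
  linarith

/-- the directions `α ζ z` with `ζ` a root of unity and `z ≠ 0` with real and imaginary part in `K` -/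
def Dir (K : Subfield ℝ) (α : ℂ) : Set ℂ :=
  {d | ∃ (ζ z : ℂ) (n : ℕ), 0 < n ∧ ζ ^ n = 1 ∧ z.re ∈ K ∧ z.im ∈ K ∧ z ≠ 0 ∧ d = α * ζ * z}

/-- the frontier of `P` lies in finitely many lines `q.1 + ℝ q.2` with directions `q.2 ∈ Dir K α` -/
def Sides (K : Subfield ℝ) (α : ℂ) (P : Set ℂ) : Prop :=
  ∃ s : Finset (ℂ × ℂ), (∀ q ∈ s, q.2 ∈ Dir K α) ∧
    frontier P ⊆ {w | ∃ q ∈ s, ∃ t : ℝ, w = q.1 + t * q.2}

/-- not both a cocompact symmetry group with an element of order 4 and one with an element of order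
3; in particular not all-purpose -/
def Concl (P : Set ℂ) : Prop :=
  (∀ T T' : Set (Set ℂ), IsTiling P T → IsTiling P T' → Coco (Sym T) → Coco (Sym T') →
    (∃ g ∈ Sym T, orderOf g = 4) → (∃ g ∈ Sym T', orderOf g = 3) → False) ∧ ¬ AllPurpose P

theorem norm_step (K K' : Subfield ℝ) (hKK : K ≤ K')
    (hz : ∀ (ζ : ℂ) (n : ℕ), 0 < n → ζ ^ n = 1 → ζ.re ∈ K' ∧ ζ.im ∈ K')
    (α : ℂ) (hα : α ≠ 0) (P : Set ℂ) (hP : Region P) (hs : Sides K α P) :
    ∃ k : ℂ ≃ᵢ ℂ, Gd K' ((fun z => k z) '' P) := by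
  have hn : ‖α‖ ≠ 0 := by simpa using hα
  have hnC : (‖α‖ : ℂ) ≠ 0 := by exact_mod_cast hn
  set ε : ℂ := (starRingEnd ℂ) α / ‖α‖ with hε
  have hε1 : ‖ε‖ = 1 := by
    rw [hε, norm_div, Complex.norm_conj, Complex.norm_real, Real.norm_eq_abs, abs_norm, div_self hn]
  have hεα : ε * α = ‖α‖ := by
    rw [hε, div_mul_eq_mul_div, mul_comm, Complex.mul_conj, Complex.normSq_eq_norm_sq]
    push_cast
    field_simp
  refine ⟨rotI ε hε1, ?_, ?_⟩
  · exact (hP.image _).cpt.isBounded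
  obtain ⟨s, hs1, hs2⟩ := hs
  have hm : ∀ q ∈ s, ∃ m : ℂ, m ≠ 0 ∧ m.re ∈ K' ∧ m.im ∈ K' ∧ ε * q.2 = (‖α‖ : ℂ) * m := by
    intro q hq
    obtain ⟨ζ, z, n, hn0, hζ, hz1, hz2, hz0, hd⟩ := hs1 q hq
    obtain ⟨a1, a2⟩ := hz ζ n hn0 hζ
    refine ⟨ζ * z, ?_, ?_, ?_, ?_⟩
    · apply mul_ne_zero _ hz0
      intro h
      rw [h, zero_pow hn0.ne'] at hζ
      exact zero_ne_one hζ
    · rw [Complex.mul_re]
      exact K'.sub_mem (K'.mul_mem a1 (hKK hz1)) (K'.mul_mem a2 (hKK hz2))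
    · rw [Complex.mul_im]
      exact K'.add_mem (K'.mul_mem a1 (hKK hz2)) (K'.mul_mem a2 (hKK hz1))
    · rw [hd, ← hεα]; ring
  choose! m hm0 hm1 hm2 hm3 using hm
  classical
  refine ⟨s.image (fun q => ((m q).im, -(m q).re,
    (m q).im * (ε * q.1).re + -(m q).re * (ε * q.1).im)), ?_, ?_⟩
  · intro p hp
    obtain ⟨q, hq, rfl⟩ := Finset.mem_image.1 hp
    refine ⟨hm2 q hq, K'.neg_mem (hm1 q hq), ?_⟩
    by_contra h
    push Not at h
    apply hm0 q hq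
    apply Complex.ext
    · simpa using h.2
    · simpa using h.1
  · have e1 : frontier ((fun z => rotI ε hε1 z) '' P) = (fun z => rotI ε hε1 z) '' frontier P :=
      ((rotI ε hε1).toHomeomorph.image_frontier P).symm
    rw [e1]
    rintro _ ⟨w, hw, rfl⟩
    obtain ⟨q, hq, t, ht⟩ := hs2 hw
    refine ⟨_, Finset.mem_image_of_mem _ hq, ?_⟩
    have h1 : rotI ε hε1 w = ε * q.1 + ((t * ‖α‖ : ℝ) : ℂ) * m q := by
      rw [rotI_apply, ht, mul_add]
      push_cast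
      linear_combination (t : ℂ) * hm3 q hq
    simp only [h1, Complex.add_re, Complex.add_im, Complex.re_ofReal_mul, Complex.im_ofReal_mul]
    ring

theorem general (hA : T_A) (hB : T_B) (hK0 : T_K0) (hO : T_O) (hH : T_H) (hexch : P_exch) (hiso : P_iso)
    (hJ1 : T_J1) (hJ2 : T_J2) (hPAr : P_Ar) (hJ3 : T_J3) (hK4 : T_K4) (hK3 : T_K3) (hS : T_S) (hL : T_L)
    (K : Subfield ℝ) (h3 : Real.sqrt 3 ∈ K) (σ : K →+* ℝ) (hσ : σ ⟨Real.sqrt 3, h3⟩ = - Real.sqrt 3)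
    (α : ℂ) (hα : α ≠ 0) (P : Set ℂ) (hP : Region P) (hs : Sides K α P) : Concl P := by
  have h1 : ∀ T T' : Set (Set ℂ), IsTiling P T → IsTiling P T' → Coco (Sym T) → Coco (Sym T') →
    (∃ g ∈ Sym T, orderOf g = 4) → (∃ g ∈ Sym T', orderOf g = 3) → False := by
    intro T T' hT hT' hc hc' o4 o3
    obtain ⟨K', σ', hF, hKK, hz⟩ := hA K h3 σ hσ
    obtain ⟨k, hk⟩ := norm_step K K' hKK hz α hα P hP hs
    exact core hB hK0 hO hH hexch hiso hJ1 hJ2 hPAr hJ3 hK4 hK3 hS K' σ' hF _ (hP.image k) hk T T'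
      (hT.congr k) (hT'.congr k) hc hc' o4 o3
  refine ⟨h1, ?_⟩
  intro hall
  obtain ⟨⟨G4, hG4, g4, hg4, o4⟩, ⟨G3, hG3, g3, hg3, o3⟩⟩ := hL
  obtain ⟨T, hT, hW, ⟨f⟩⟩ := hall G4 hG4
  obtain ⟨T', hT', hW', ⟨f'⟩⟩ := hall G3 hG3
  refine h1 T T' hT hT' hW.1 hW'.1 ⟨(f.symm ⟨g4, hg4⟩ : Sym T), (f.symm ⟨g4, hg4⟩).2, ?_⟩
    ⟨(f'.symm ⟨g3, hg3⟩ : Sym T'), (f'.symm ⟨g3, hg3⟩).2, ?_⟩
  · rw [Subgroup.orderOf_coe, MulEquiv.orderOf_eq, Subgroup.orderOf_mk, o4]
  · rw [Subgroup.orderOf_coe, MulEquiv.orderOf_eq, Subgroup.orderOf_mk, o3]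

theorem general' (hM : T_M) (hA : T_A) (hB : T_B) (hK0 : T_K0) (hO : T_O) (hH : T_H) (hexch : P_exch)
    (hiso : P_iso)
    (hJ1 : T_J1) (hJ2 : T_J2) (hPAr : P_Ar) (hJ3 : T_J3) (hK4 : T_K4) (hK3 : T_K3) (hS : T_S) (hL : T_L)
    (F : Subfield ℝ) (hF : Real.sqrt 3 ∉ F) (α : ℂ) (hα : α ≠ 0) (P : Set ℂ) (hP : Region P)
    (hs : Sides (Subfield.closure (insert (Real.sqrt 3) (F : Set ℝ))) α P) : Concl P := by
  obtain ⟨K, h, σ, hFK, hσ⟩ := hM F hF
  refine general hA hB hK0 hO hH hexch hiso hJ1 hJ2 hPAr hJ3 hK4 hK3 hS hL K h σ hσ α hα P hP ?_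
  obtain ⟨s, hs1, hs2⟩ := hs
  refine ⟨s, ?_, hs2⟩
  intro q hq
  obtain ⟨ζ, z, n, hn0, hζ, hz1, hz2, hz0, hd⟩ := hs1 q hq
  have hle : Subfield.closure (insert (Real.sqrt 3) (F : Set ℝ)) ≤ K := by
    rw [Subfield.closure_le]
    exact insert_subset h hFK
  exact ⟨ζ, z, n, hn0, hζ, hle hz1, hle hz2, hz0, hd⟩

end

end H74R2.WT
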