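import Mathlib

set_option autoImplicit false

namespace H74R2.WT

/-- `√3` is a sum of squares of elements of `K` -/
def SS (K : Subfield ℝ) : Prop := ∃ l : List ℝ, (∀ a ∈ l, a ∈ K) ∧ (l.map (fun a => a ^ 2)).sum = Real.sqrt 3

theorem quad_form (K : Subfield ℝ) (s n : ℝ) (hs : s ∉ K) (hn : n ∈ K) (hsn : s ^ 2 = n) :
    ∃ E : Subfield ℝ, K ≤ E ∧ s ∈ E ∧ ∀ z ∈ E, ∃ x ∈ K, ∃ y ∈ K, z = x + y * s := by
  have key : ∀ x y : ℝ, x ∈ K → y ∈ K → x ^ 2 - n * y ^ 2 = 0 → x = 0 ∧ y = 0 := by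
    intro x y hx hy h
    by_cases hy0 : y = 0
    · subst hy0
      refine ⟨?_, rfl⟩
      have : x ^ 2 = 0 := by linarith
      exact pow_eq_zero_iff (two_ne_zero) |>.1 this
    · exfalso
      apply hs
      have h1 : (s - x / y) * (s + x / y) = 0 := by
        have : s ^ 2 - (x / y) ^ 2 = 0 := by
          rw [hsn, div_pow]
          field_simp
          linarith
        linarith
      rcases mul_eq_zero.1 h1 with h2 | h2
      · have : s = x / y := by linarith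
        rw [this]; exact K.div_mem hx hy
      · have : s = -(x / y) := by linarith
        rw [this]; exact K.neg_mem (K.div_mem hx hy)
  refine ⟨{ carrier := {z | ∃ x ∈ K, ∃ y ∈ K, z = x + y * s}
            mul_mem' := ?_, one_mem' := ?_, add_mem' := ?_, zero_mem' := ?_, neg_mem' := ?_, inv_mem' := ?_ },
          ?_, ?_, ?_⟩
  · rintro _ _ ⟨x, hx, y, hy, rfl⟩ ⟨x', hx', y', hy', rfl⟩
    refine ⟨x * x' + n * (y * y'), K.add_mem (K.mul_mem hx hx') (K.mul_mem hn (K.mul_mem hy hy')),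
      x * y' + y * x', K.add_mem (K.mul_mem hx hy') (K.mul_mem hy hx'), ?_⟩
    rw [← hsn]; ring
  · exact ⟨1, K.one_mem, 0, K.zero_mem, by ring⟩
  · rintro _ _ ⟨x, hx, y, hy, rfl⟩ ⟨x', hx', y', hy', rfl⟩
    exact ⟨x + x', K.add_mem hx hx', y + y', K.add_mem hy hy', by ring⟩
  · exact ⟨0, K.zero_mem, 0, K.zero_mem, by ring⟩
  · rintro _ ⟨x, hx, y, hy, rfl⟩
    exact ⟨-x, K.neg_mem hx, -y, K.neg_mem hy, by ring⟩
  · rintro _ ⟨x, hx, y, hy, rfl⟩
    by_cases h0 : x ^ 2 - n * y ^ 2 = 0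
    · obtain ⟨rfl, rfl⟩ := key x y hx hy h0
      exact ⟨0, K.zero_mem, 0, K.zero_mem, by simp⟩
    · have hd : x ^ 2 - n * y ^ 2 ∈ K := K.sub_mem (K.pow_mem hx 2) (K.mul_mem hn (K.pow_mem hy 2))
      refine ⟨x / (x ^ 2 - n * y ^ 2), K.div_mem hx hd, -y / (x ^ 2 - n * y ^ 2),
        K.div_mem (K.neg_mem hy) hd, ?_⟩
      have h1 : (x + y * s) * (x - y * s) = x ^ 2 - n * y ^ 2 := by rw [← hsn]; ring
      have h2 : x + y * s ≠ 0 := by
        intro h; rw [h, zero_mul] at h1; exact h0 h1.symm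
      have h3 : x - y * s ≠ 0 := by
        intro h; rw [h, mul_zero] at h1; exact h0 h1.symm
      have h4 : x / (x ^ 2 - n * y ^ 2) + -y / (x ^ 2 - n * y ^ 2) * s = (x - y * s) / (x ^ 2 - n * y ^ 2) := by
        ring
      rw [h4, eq_div_iff h0, ← h1, ← mul_assoc, inv_mul_cancel₀ h2, one_mul]
  · intro z hz
    exact ⟨z, hz, 0, K.zero_mem, by ring⟩
  · exact ⟨0, K.zero_mem, 1, K.one_mem, by ring⟩
  · intro z hz; exact hz

theorem ss_step (K : Subfield ℝ) (h3 : Real.sqrt 3 ∈ K) (a b s : ℝ) (ha : a ∈ K) (hb : b ∈ K) (hs : s ∉ K)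
    (hsn : s ^ 2 = a ^ 2 + b ^ 2) (l : List ℝ) (hl : ∀ z ∈ l, ∃ x ∈ K, ∃ y ∈ K, z = x + y * s)
    (hsum : (l.map (fun a => a ^ 2)).sum = Real.sqrt 3) : SS K := by
  -- general decomposition
  have dec : ∀ l : List ℝ, (∀ z ∈ l, ∃ x ∈ K, ∃ y ∈ K, z = x + y * s) →
      ∃ (m : List ℝ) (c : ℝ), (∀ u ∈ m, u ∈ K) ∧ c ∈ K ∧
        (l.map (fun a => a ^ 2)).sum = (m.map (fun a => a ^ 2)).sum + c * s := by
    intro l
    induction l with
    | nil => intro _; exact ⟨[], 0, by simp, K.zero_mem, by simp⟩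
    | cons z l ih =>
      intro h
      obtain ⟨m, c, hm, hc, he⟩ := ih (fun z hz => h z (List.mem_cons_of_mem _ hz))
      obtain ⟨x, hx, y, hy, rfl⟩ := h z List.mem_cons_self
      refine ⟨x :: (a * y) :: (b * y) :: m, 2 * x * y + c, ?_, ?_, ?_⟩
      · intro u hu
        simp only [List.mem_cons] at hu
        rcases hu with rfl | rfl | rfl | hu
        · exact hx
        · exact K.mul_mem ha hy
        · exact K.mul_mem hb hy
        · exact hm u hu
      · exact K.add_mem (K.mul_mem (K.mul_mem (by exact_mod_cast natCast_mem K 2) hx) hy) hc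
      · simp only [List.map_cons, List.sum_cons]
        rw [he]
        linear_combination y ^ 2 * hsn
  obtain ⟨m, c, hm, hc, he⟩ := dec l hl
  refine ⟨m, hm, ?_⟩
  have hmK : (m.map (fun a => a ^ 2)).sum ∈ K := by
    apply K.list_sum_mem
    intro u hu
    obtain ⟨v, hv, rfl⟩ := List.mem_map.1 hu
    exact K.pow_mem (hm v hv) 2
  rw [hsum] at he
  by_cases hc0 : c = 0
  · rw [hc0, zero_mul, add_zero] at he
    exact he.symm
  · exfalso
    apply hs
    have : s = (Real.sqrt 3 - (m.map (fun a => a ^ 2)).sum) / c := by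
      rw [eq_div_iff hc0]; linarith
    rw [this]
    exact K.div_mem (K.sub_mem h3 hmK) hc

theorem exists_pyth (K : Subfield ℝ) (h3 : Real.sqrt 3 ∈ K) (h : ¬ SS K) :
    ∃ K' : Subfield ℝ, K ≤ K' ∧ (∀ a b : ℝ, a ∈ K' → b ∈ K' → Real.sqrt (a ^ 2 + b ^ 2) ∈ K') ∧
      Real.sqrt (Real.sqrt 3) ∉ K' := by
  obtain ⟨M, hKM, hM⟩ := zorn_le_nonempty₀ {E : Subfield ℝ | ¬ SS E} (by
    intro c hc hchain y hy
    refine ⟨sSup c, ?_, fun z hz => le_sSup hz⟩
    intro hSS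
    obtain ⟨l, hl, hs⟩ := hSS
    have hdir : DirectedOn (· ≤ ·) c := hchain.directedOn
    have hfin : ∀ l : List ℝ, (∀ a ∈ l, a ∈ sSup c) → ∃ E ∈ c, ∀ a ∈ l, a ∈ E := by
      intro l
      induction l with
      | nil => intro _; exact ⟨y, hy, by simp⟩
      | cons a l ih =>
        intro hl
        obtain ⟨E, hE, hE'⟩ := ih (fun z hz => hl z (List.mem_cons_of_mem _ hz))
        have ha := hl a List.mem_cons_self
        rw [Subfield.mem_sSup_of_directedOn ⟨y, hy⟩ hdir] at ha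
        obtain ⟨E', hE1, hE2⟩ := ha
        obtain ⟨E'', h1, h2, h3⟩ := hdir E hE E' hE1
        refine ⟨E'', h1, ?_⟩
        intro z hz
        rcases List.mem_cons.1 hz with rfl | hz
        · exact h3 hE2
        · exact h2 (hE' z hz)
    obtain ⟨E, hE, hE'⟩ := hfin l hl
    exact hc hE ⟨l, hE', hs⟩) K h
  refine ⟨M, hKM, ?_, ?_⟩
  · intro a b ha hb
    by_contra hs
    have hnn : 0 ≤ a ^ 2 + b ^ 2 := by positivity
    have hsn : Real.sqrt (a ^ 2 + b ^ 2) ^ 2 = a ^ 2 + b ^ 2 := Real.sq_sqrt hnn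
    obtain ⟨E, hME, hsE, hE⟩ := quad_form M _ _ hs (M.add_mem (M.pow_mem ha 2) (M.pow_mem hb 2)) hsn
    have hnE : ¬ SS E := by
      rintro ⟨l, hl, hsum⟩
      exact hM.prop (ss_step M (hKM h3) a b _ ha hb hs hsn l (fun z hz => hE z (hl z hz)) hsum)
    exact hs (hM.le_of_ge hnE hME hsE)
  · intro hmem
    apply hM.prop
    refine ⟨[Real.sqrt (Real.sqrt 3)], by simpa using hmem, ?_⟩
    simp [Real.sq_sqrt (Real.sqrt_nonneg 3)]

end H74R2.WT
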