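import Pool.Agent.H74R2.WT.Fin
import Pool.Agent.H74R2.WT.PythExt

set_option autoImplicit false

open MeasureTheory Set

namespace H74R2.WT

theorem res (hN4 : T_N4) (hN3 : T_N3) :
    (∀ K : Subfield ℝ, Real.sqrt 3 ∈ K →
      (¬ ∃ l : List ℝ, (∀ a ∈ l, a ∈ K) ∧ (l.map (fun a => a ^ 2)).sum = Real.sqrt 3) →
      ∀ α : ℂ, α ≠ 0 → ∀ P : Set ℂ, Region P →
      (∃ s : Finset (ℂ × ℂ), (∀ q ∈ s, q.2.re ∈ K ∧ q.2.im ∈ K ∧ q.2 ≠ 0) ∧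
        frontier P ⊆ {w | ∃ q ∈ s, ∃ t : ℝ, w = q.1 + t * (α * q.2)}) → Concl3 P) ∧
    (∀ F : Subfield ℝ, Real.sqrt 3 ∉ F → ∀ α : ℂ, α ≠ 0 → ∀ P : Set ℂ, Region P →
      (∃ s : Finset (ℂ × ℂ), (∀ q ∈ s, ∃ (ζ z : ℂ) (n : ℕ), 0 < n ∧ ζ ^ n = 1 ∧
          (∃ a ∈ F, ∃ b ∈ F, z.re = a + b * Real.sqrt 3) ∧
          (∃ a ∈ F, ∃ b ∈ F, z.im = a + b * Real.sqrt 3) ∧ z ≠ 0 ∧ q.2 = α * ζ * z) ∧
        frontier P ⊆ {w | ∃ q ∈ s, ∃ t : ℝ, w = q.1 + t * q.2}) → Concl3 P) ∧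
    (∀ α : ℂ, α ≠ 0 → ∀ P : Set ℂ, Region P →
      (∃ s : Finset (ℂ × ℂ), (∀ q ∈ s, ∃ n : ℕ, 0 < n ∧ q.2 ^ n = 1) ∧
        frontier P ⊆ {w | ∃ q ∈ s, ∃ t : ℝ, w = q.1 + t * (α * q.2)}) → Concl3 P) ∧
    (∀ F : Subfield ℝ, Real.sqrt 3 ∉ F → ∀ P : Set ℂ, Region P →
      (∃ s : Finset (ℂ × ℂ), (∀ q ∈ s, q.1.re ∈ F ∧ q.1.im ∈ F ∧ q.2.re ∈ F ∧ q.2.im ∈ F) ∧
        frontier P ⊆ ⋃ q ∈ s, segment ℝ q.1 q.2) → Concl3 P) := by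
  refine ⟨?_, ?_, ?_, ?_⟩
  · rintro K h3 hss α hα P hP ⟨s, hs1, hs2⟩
    obtain ⟨K', hKK, hpy, hn⟩ := exists_pyth K h3 hss
    exact main_pyth hN4 hN3 K' hpy hn α hα P hP
      ⟨s, fun q hq => ⟨hKK (hs1 q hq).1, hKK (hs1 q hq).2.1, (hs1 q hq).2.2⟩, hs2⟩
  · rintro F hF α hα P hP ⟨s, hs1, hs2⟩
    have h3 : Real.sqrt 3 ∈ Subfield.closure (insert (Real.sqrt 3) (F : Set ℝ)) :=
      Subfield.subset_closure (mem_insert _ _)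
    have hle : F ≤ Subfield.closure (insert (Real.sqrt 3) (F : Set ℝ)) := fun x hx =>
      Subfield.subset_closure (mem_insert_of_mem _ hx)
    refine main_field hN4 hN3 F hF α hα P hP ⟨s, ?_, hs2⟩
    intro q hq
    obtain ⟨ζ, z, n, hn, hz, ⟨a, ha, b, hb, e1⟩, ⟨a', ha', b', hb', e2⟩, h0, hd⟩ := hs1 q hq
    refine ⟨ζ, z, n, hn, hz, ?_, ?_, h0, hd⟩
    · rw [e1]; exact Subfield.add_mem _ (hle ha) (Subfield.mul_mem _ (hle hb) h3)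
    · rw [e2]; exact Subfield.add_mem _ (hle ha') (Subfield.mul_mem _ (hle hb') h3)
  · rintro α hα P hP ⟨s, hs1, hs2⟩
    exact main_rational_angles hN4 hN3 α hα P hP s hs1 hs2
  · rintro F hF P hP ⟨s, hs1, hs2⟩
    exact main_vertices hN4 hN3 F hF P hP s hs1 hs2

end H74R2.WT
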