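import Mathlib

set_option autoImplicit false

open MeasureTheory Set

namespace H74R2.WT

noncomputable section

/-! ## Tilings and symmetry groups -/

/-- `T` is a monohedral tiling of the plane with prototile `P`. -/
structure IsTiling (P : Set ℂ) (T : Set (Set ℂ)) : Prop where
  tile : ∀ A ∈ T, ∃ g : ℂ ≃ᵢ ℂ, A = (fun z => g z) '' P
  cover : ⋃₀ T = univ
  disj : T.Pairwise (fun A B => Disjoint (interior A) (interior B))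

/-- The symmetry group of `T`: the isometries mapping every tile of `T` onto a tile of `T` (and
whose inverse does so, too). -/
def Sym (T : Set (Set ℂ)) : Subgroup (ℂ ≃ᵢ ℂ) where
  carrier := {g | (∀ A ∈ T, (fun z => g z) '' A ∈ T) ∧ ∀ A ∈ T, (fun z => g⁻¹ z) '' A ∈ T}
  one_mem' := by
    constructor <;> intro A hA <;> simpa using hA
  mul_mem' := by
    rintro g h ⟨hg, hg'⟩ ⟨hh, hh'⟩
    constructor
    · intro A hA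
      have := hg _ (hh A hA)
      rw [image_image] at this
      exact this
    · intro A hA
      have := hh' _ (hg' A hA)
      rw [image_image] at this
      rw [mul_inv_rev]
      exact this
  inv_mem' := by
    rintro g ⟨hg, hg'⟩
    refine ⟨hg', ?_⟩
    rw [inv_inv]
    exact hg

/-- The images of some bounded set under `G` cover the plane. -/
def Coco (G : Subgroup (ℂ ≃ᵢ ℂ)) : Prop :=
  ∃ B : Set ℂ, Bornology.IsBounded B ∧ ∀ z : ℂ, ∃ g ∈ G, ∃ w ∈ B, g w = z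

/-- Wallpaper group (plane crystallographic group): discrete and cocompact. -/
def IsWallpaper (G : Subgroup (ℂ ≃ᵢ ℂ)) : Prop :=
  Coco G ∧ ∀ p : ℂ, ∃ δ > 0, ∀ g ∈ G, g p ≠ p → δ ≤ dist p (g p)

/-- `P` realizes the wallpaper group `G`: some monohedral tiling with prototile `P` has as its
symmetry group a wallpaper group isomorphic to `G`. -/
def Realizes (P : Set ℂ) (G : Subgroup (ℂ ≃ᵢ ℂ)) : Prop :=
  ∃ T : Set (Set ℂ), IsTiling P T ∧ IsWallpaper (Sym T) ∧ Nonempty (Sym T ≃* G)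

/-- All-purpose tile. -/
def AllPurpose (P : Set ℂ) : Prop := ∀ G : Subgroup (ℂ ≃ᵢ ℂ), IsWallpaper G → Realizes P G

/-- compact, closure of its nonempty interior -/
structure Region (P : Set ℂ) : Prop where
  cpt : IsCompact P
  ne : (interior P).Nonempty
  reg : P ⊆ closure (interior P)

/-- translation by `v` -/
def tr (v : ℂ) : ℂ ≃ᵢ ℂ := IsometryEquiv.addRight v

/-- `e^{iπ/3}` -/
def e3 : ℂ := ⟨1 / 2, Real.sqrt 3 / 2⟩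

/-! ## Fields -/

structure Fld (K : Subfield ℝ) (σ : K →+* ℝ) : Prop where
  s3 : Real.sqrt 3 ∈ K
  neg : ∀ h : Real.sqrt 3 ∈ K, σ ⟨Real.sqrt 3, h⟩ = - Real.sqrt 3
  pyth : ∀ a b : ℝ, a ∈ K → b ∈ K → Real.sqrt (a ^ 2 + b ^ 2) ∈ K

/-- the additive map `φ` is `σ`-semilinear -/
def Semi {K : Subfield ℝ} (σ : K →+* ℝ) (φ : ℝ →+ ℝ) : Prop :=
  ∀ (k : K) (x : ℝ), φ ((k : ℝ) * x) = σ k * φ x

/-- task A: extension of `σ` to a Pythagorean field containing all cos, sin of rational angles -/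
def T_A : Prop := ∀ (K : Subfield ℝ) (h3 : Real.sqrt 3 ∈ K) (σ : K →+* ℝ),
  σ ⟨Real.sqrt 3, h3⟩ = - Real.sqrt 3 →
  ∃ (K' : Subfield ℝ) (σ' : K' →+* ℝ), Fld K' σ' ∧ K ≤ K' ∧
    (∀ (ζ : ℂ) (n : ℕ), 0 < n → ζ ^ n = 1 → ζ.re ∈ K' ∧ ζ.im ∈ K')

/-- task B: existence of `φ` -/
def T_B : Prop := ∀ (K : Subfield ℝ) (σ : K →+* ℝ) (x0 : ℝ), x0 ≠ 0 →
  ∃ φ : ℝ →+ ℝ, Semi σ φ ∧ φ x0 ≠ 0

/-- task M: a field without `√3` -/
def T_M : Prop := ∀ F : Subfield ℝ, Real.sqrt 3 ∉ F →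
  ∃ (K : Subfield ℝ) (h : Real.sqrt 3 ∈ K) (σ : K →+* ℝ), F ≤ K ∧ σ ⟨Real.sqrt 3, h⟩ = - Real.sqrt 3

/-! ## Piecewise affine functions -/

/-- an affine piece `s ↦ c + k s` on the open interval `(a, b)` with `k ∈ K` -/
structure Piece (K : Subfield ℝ) where
  a : ℝ
  b : ℝ
  c : ℝ
  k : K
  hab : a < b

open Classical in
def Piece.f {K : Subfield ℝ} (p : Piece K) (s : ℝ) : ℝ :=
  if p.a < s ∧ s < p.b then p.c + (p.k : ℝ) * s else 0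

/-- the `φ`-integral of a piece -/
def Piece.J {K : Subfield ℝ} (σ : K →+* ℝ) (φ : ℝ →+ ℝ) (p : Piece K) : ℝ :=
  φ p.c * (φ p.b - φ p.a) + 1 / 2 * σ p.k * ((φ p.b) ^ 2 - (φ p.a) ^ 2)

/-- task C: well-definedness of the `φ`-integral -/
def T_C : Prop := ∀ (K : Subfield ℝ) (σ : K →+* ℝ) (φ : ℝ →+ ℝ), Semi σ φ →
  ∀ W : List (ℤ × Piece K),
    (∀ᵐ s : ℝ, (W.map (fun q => (q.1 : ℝ) * q.2.f s)).sum = 0) →
    (W.map (fun q => (q.1 : ℝ) * q.2.J σ φ)).sum = 0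

/-! ## Plane sets -/

open Classical in
/-- indicator function -/
def ind (G : Set ℂ) (z : ℂ) : ℝ := if z ∈ G then 1 else 0

/-- length of the horizontal slice at height `y` -/
def hs (G : Set ℂ) (y : ℝ) : ℝ := (volume {x : ℝ | (⟨x, y⟩ : ℂ) ∈ G}).toReal

/-- the list of pieces `l` represents the function `y ↦ hs G y` -/
def RepOf (K : Subfield ℝ) (G : Set ℂ) (l : List (Piece K)) : Prop :=
  ∀ᵐ y : ℝ, hs G y = (l.map (fun p => p.f y)).sum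

open Classical in
/-- the `φ`-area of `G` -/
def Ar {K : Subfield ℝ} (σ : K →+* ℝ) (φ : ℝ →+ ℝ) (G : Set ℂ) : ℝ :=
  if h : ∃ l : List (Piece K), RepOf K G l then (h.choose.map (fun p => p.J σ φ)).sum else 0

/-- good sets: bounded, frontier in finitely many lines `a x + b y = c` with `a, b ∈ K` -/
structure Gd (K : Subfield ℝ) (G : Set ℂ) : Prop where
  bdd : Bornology.IsBounded G
  lines : ∃ L : Finset (ℝ × ℝ × ℝ),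
    (∀ q ∈ L, q.1 ∈ K ∧ q.2.1 ∈ K ∧ (q.1 ≠ 0 ∨ q.2.1 ≠ 0)) ∧
    frontier G ⊆ {z | ∃ q ∈ L, q.1 * z.re + q.2.1 * z.im = q.2.2}

/-- open trapezoid with horizontal bases -/
structure HT (K : Subfield ℝ) where
  a : ℝ
  b : ℝ
  c1 : ℝ
  c2 : ℝ
  k1 : K
  k2 : K
  hab : a < b
  hlt : ∀ y ∈ Ioo a b, c1 + (k1 : ℝ) * y < c2 + (k2 : ℝ) * y

def HT.set {K : Subfield ℝ} (t : HT K) : Set ℂ :=
  {z | (t.a < z.im ∧ z.im < t.b) ∧ (t.c1 + (t.k1 : ℝ) * z.im < z.re ∧ z.re < t.c2 + (t.k2 : ℝ) * z.im)}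

/-- task D1: one strip without crossings. `F` = the finite set of (slope, constant) of the lines. -/
def T_D1 : Prop := ∀ (K : Subfield ℝ) (y0 y1 : ℝ) (_ : y0 < y1) (F : Finset (K × ℝ)) (G : Set ℂ),
  Bornology.IsBounded G →
  (∀ f ∈ F, ∀ g ∈ F, f ≠ g → ∀ y ∈ Ioo y0 y1, f.2 + (f.1 : ℝ) * y ≠ g.2 + (g.1 : ℝ) * y) →
  (∀ z ∈ frontier G, z.im ∈ Ioo y0 y1 → ∃ f ∈ F, z.re = f.2 + (f.1 : ℝ) * z.im) →
  ∃ ts : List (HT K), (∀ t ∈ ts, t.a = y0 ∧ t.b = y1) ∧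
    ∀ y ∈ Ioo y0 y1, {x : ℝ | ind G ⟨x, y⟩ ≠ (ts.map (fun t => ind t.set ⟨x, y⟩)).sum}.Finite

/-- task D2: trapezoid decomposition of good sets -/
def T_D : Prop := ∀ (K : Subfield ℝ) (G : Set ℂ), Gd K G →
  ∃ (ts : List (HT K)) (Y : Finset ℝ), ∀ y ∉ Y,
    {x : ℝ | ind G ⟨x, y⟩ ≠ (ts.map (fun t => ind t.set ⟨x, y⟩)).sum}.Finite

def T_D2 : Prop := T_D1 → T_D

/-! ### the interface of the `φ`-area -/

def P_trap : Prop := ∀ (K : Subfield ℝ) (G : Set ℂ), Gd K G →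
  ∃ ts : List (HT K), ∀ᵐ z : ℂ, ind G z = (ts.map (fun t => ind t.set z)).sum

def P_rep : Prop := ∀ (K : Subfield ℝ) (G : Set ℂ), Gd K G → ∃ l : List (Piece K), RepOf K G l

def P_Ar : Prop := ∀ (K : Subfield ℝ) (σ : K →+* ℝ) (φ : ℝ →+ ℝ), Semi σ φ →
  ∀ (G : Set ℂ) (l : List (Piece K)), RepOf K G l → Ar σ φ G = (l.map (fun p => p.J σ φ)).sum

/-- additivity -/
def P_add : Prop := ∀ (K : Subfield ℝ) (σ : K →+* ℝ) (φ : ℝ →+ ℝ), Semi σ φ →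
  ∀ W : List (ℤ × Set ℂ), (∀ q ∈ W, Gd K q.2) →
    (∀ᵐ z : ℂ, (W.map (fun q => (q.1 : ℝ) * ind q.2 z)).sum = 0) →
    (W.map (fun q => (q.1 : ℝ) * Ar σ φ q.2)).sum = 0

/-- task E1 -/
def T_E1 : Prop := T_D → P_trap
/-- task E2 -/
def T_E2 : Prop := T_D → P_rep
/-- task E3 -/
def T_E3 : Prop := T_C → P_Ar
/-- task E4 -/
def T_E4 : Prop := P_rep → P_Ar → T_C → P_add

/-! ### Fubini -/

def swap (z : ℂ) : ℂ := ⟨z.im, z.re⟩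

/-- the region between the line `y = -M` and the graph of `x ↦ c + k x` over `(a, b)` -/
def Under (a b c k M : ℝ) : Set ℂ := {z | (a < z.re ∧ z.re < b) ∧ (-M < z.im ∧ z.im < c + k * z.re)}

/-- task F1: horizontal slices of `Under` -/
def T_F1 : Prop := ∀ (K : Subfield ℝ) (σ : K →+* ℝ) (φ : ℝ →+ ℝ), Semi σ φ →
  ∀ (a b c M : ℝ) (k : K), a < b → -M < c + (k : ℝ) * a → -M < c + (k : ℝ) * b →
  ∃ l : List (Piece K), RepOf K (Under a b c (k : ℝ) M) l ∧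
    (l.map (fun p => p.J σ φ)).sum =
      φ (c + M) * (φ b - φ a) + 1 / 2 * σ k * ((φ b) ^ 2 - (φ a) ^ 2)

/-- open convex polygons cut out by finitely many half planes with coefficients in `K` are good -/
def P_poly : Prop := ∀ (K : Subfield ℝ) (L : Finset (ℝ × ℝ × ℝ)) (G : Set ℂ),
  (∀ q ∈ L, q.1 ∈ K ∧ q.2.1 ∈ K ∧ (q.1 ≠ 0 ∨ q.2.1 ≠ 0)) →
  G = {z | ∀ q ∈ L, q.1 * z.re + q.2.1 * z.im < q.2.2} → Bornology.IsBounded G → Gd K G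

/-- task F2 -/
def T_F2 : Prop := P_poly ∧ (∀ (K : Subfield ℝ) (t : HT K), Gd K t.set ∧ Gd K (swap '' t.set)) ∧
  (∀ (K : Subfield ℝ) (a b c M : ℝ) (k : K), a < b → Gd K (Under a b c (k : ℝ) M))

/-- the `φ`-area is invariant under swapping the coordinates -/
def P_swap : Prop := ∀ (K : Subfield ℝ) (σ : K →+* ℝ) (φ : ℝ →+ ℝ), Semi σ φ →
  ∀ G : Set ℂ, Gd K G → Ar σ φ (swap '' G) = Ar σ φ G

/-- images of good sets under affine maps with linear part over `K` -/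
def P_gdlin : Prop := ∀ (K : Subfield ℝ) (p q r s : ℝ) (v : ℂ) (G : Set ℂ), p ∈ K → q ∈ K → r ∈ K → s ∈ K →
  p * s - q * r ≠ 0 → Gd K G →
  Gd K ((fun z : ℂ => (⟨p * z.re + q * z.im, r * z.re + s * z.im⟩ : ℂ) + v) '' G)

/-- task F3 -/
def T_F3 : Prop := P_trap → P_add → P_Ar → T_F1 → T_F2 → P_gdlin → P_swap

/-! ### Isometries -/

/-- unit complex numbers with coordinates in `K` -/
def uD (K : Subfield ℝ) : Set ℂ := {u | ‖u‖ = 1 ∧ u.re ∈ K ∧ u.im ∈ K}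

/-- task G2 -/
def T_G2 : Prop := P_gdlin ∧ (∀ (K : Subfield ℝ) (A B : Set ℂ), Gd K A → Gd K B → Gd K (A ∩ B))

/-- horizontal shears -/
def P_shear : Prop := ∀ (K : Subfield ℝ) (σ : K →+* ℝ) (φ : ℝ →+ ℝ), Semi σ φ →
  ∀ (G : Set ℂ) (p : ℝ), Gd K G → Ar σ φ ((fun z : ℂ => (⟨z.re + p * z.im, z.im⟩ : ℂ)) '' G) = Ar σ φ G

def P_tr : Prop := ∀ (K : Subfield ℝ) (σ : K →+* ℝ) (φ : ℝ →+ ℝ), Semi σ φ →
  ∀ (G : Set ℂ) (v : ℂ), Gd K G → Ar σ φ ((fun z : ℂ => z + v) '' G) = Ar σ φ G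

def P_conj : Prop := ∀ (K : Subfield ℝ) (σ : K →+* ℝ) (φ : ℝ →+ ℝ), Semi σ φ →
  ∀ (G : Set ℂ), Gd K G → Ar σ φ ((fun z : ℂ => (starRingEnd ℂ) z) '' G) = Ar σ φ G

/-- task G1 -/
def T_G1 : Prop := P_rep → P_Ar → P_shear ∧ P_tr ∧ P_conj

/-- `A` is congruent to `P` via `z ↦ u z + b` or `z ↦ u z̄ + b` -/
def Cong (P A : Set ℂ) (u b : ℂ) : Prop :=
  A = (fun z => u * z + b) '' P ∨ A = (fun z => u * (starRingEnd ℂ) z + b) '' P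

/-- the `φ`-area is invariant under the isometries with rotational part in `uD K` -/
def P_iso : Prop := ∀ (K : Subfield ℝ) (σ : K →+* ℝ) (φ : ℝ →+ ℝ), Semi σ φ →
  ∀ (P A : Set ℂ) (u b : ℂ), Gd K P → u ∈ uD K → Cong P A u b → Gd K A ∧ Ar σ φ A = Ar σ φ P

/-- task G3 -/
def T_G3 : Prop := P_swap → P_shear → P_tr → P_conj → P_gdlin → P_iso

/-! ### Tilings -/

/-- task K0: isometries of the plane -/
def T_K0 : Prop := ∀ g : ℂ ≃ᵢ ℂ, ∃ u b : ℂ, ‖u‖ = 1 ∧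
  ((∀ z, g z = u * z + b) ∨ (∀ z, g z = u * (starRingEnd ℂ) z + b))

/-- task O: local finiteness -/
def T_O : Prop := ∀ (P : Set ℂ) (T : Set (Set ℂ)), Region P → IsTiling P T →
  T.Nonempty ∧ T.Countable ∧ (∀ R : ℝ, {A ∈ T | (A ∩ Metric.closedBall 0 R).Nonempty}.Finite) ∧
  (∀ A ∈ T, Region A) ∧ (∃ D : ℝ, ∀ A ∈ T, ∀ x ∈ A, ∀ y ∈ A, dist x y ≤ D)

/-- task H: all tiles belong to one class of directions -/
def T_H : Prop := T_K0 → T_O → ∀ (K : Subfield ℝ),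
  (∀ a b : ℝ, a ∈ K → b ∈ K → Real.sqrt (a ^ 2 + b ^ 2) ∈ K) →
  ∀ (P : Set ℂ) (T : Set (Set ℂ)), Region P → Gd K P → IsTiling P T →
  ∃ ε : ℂ, ‖ε‖ = 1 ∧ ∀ A ∈ T, ∃ u ∈ uD K, ∃ b : ℂ, Cong P A (ε * u) b

/-- the conclusion of the exchange argument -/
def P_exch : Prop := ∀ (K : Subfield ℝ) (σ : K →+* ℝ) (φ : ℝ →+ ℝ), Semi σ φ →
  ∀ (T : Set (Set ℂ)) (c0 D : ℝ) (v1 v2 : ℂ) (F0 : Set ℂ),
  T.Nonempty → (∀ A ∈ T, Region A ∧ Gd K A ∧ Ar σ φ A = c0) → ⋃₀ T = univ →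
  T.Pairwise (fun A B => Disjoint (interior A) (interior B)) →
  (∀ R : ℝ, {A ∈ T | (A ∩ Metric.closedBall 0 R).Nonempty}.Finite) → T.Countable →
  (∀ A ∈ T, ∀ x ∈ A, ∀ y ∈ A, dist x y ≤ D) →
  (∀ A : Set ℂ, A ∈ T ↔ (fun z => z + v1) '' A ∈ T) → (∀ A : Set ℂ, A ∈ T ↔ (fun z => z + v2) '' A ∈ T) →
  Gd K F0 → (∀ z : ℂ, ∃! m : ℤ × ℤ, z - m.1 * v1 - m.2 * v2 ∈ F0) →
  ∃ N : ℕ, 0 < N ∧ Ar σ φ F0 = N * c0

/-- task I -/
def T_I : Prop := P_add → P_tr → T_G2 → P_exch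

/-- task J1: fundamental domain of the lattice spanned by `(a,b)` and `(-c,d)` -/
def T_J1 : Prop := ∀ a b c d : ℝ, 0 < a → 0 < d → ((0 < b ∧ 0 < c) ∨ (b = 0 ∧ c = 0)) →
  ∀ s t : ℝ, ∃! m : ℤ × ℤ,
    ((0 ≤ s - m.1 * a + m.2 * c ∧ s - m.1 * a + m.2 * c < a) ∧
      (0 ≤ t - m.1 * b - m.2 * d ∧ t - m.1 * b - m.2 * d < d)) ∨
    ((a ≤ s - m.1 * a + m.2 * c ∧ s - m.1 * a + m.2 * c < a + c) ∧
      (0 ≤ t - m.1 * b - m.2 * d ∧ t - m.1 * b - m.2 * d < b))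

/-- two adjacent parallelograms with sides parallel to `1` and `e` -/
def F0 (a b c d : ℝ) (e : ℂ) : Set ℂ := {z | ∃ s t : ℝ, z = s + t * e ∧
  (((0 ≤ s ∧ s < a) ∧ (0 ≤ t ∧ t < d)) ∨ ((a ≤ s ∧ s < a + c) ∧ (0 ≤ t ∧ t < b)))}

/-- task J2 -/
def T_J2 : Prop := P_Ar → ∀ (K : Subfield ℝ) (σ : K →+* ℝ) (φ : ℝ →+ ℝ), Semi σ φ →
  ∀ (a b c d : ℝ) (e : ℂ) (_ : e.re ∈ K) (h : e.im ∈ K), 0 < e.im → 0 < a → 0 < d →
  ((0 < b ∧ 0 < c) ∨ (b = 0 ∧ c = 0)) →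
  Gd K (F0 a b c d e) ∧ Ar σ φ (F0 a b c d e) = σ ⟨e.im, h⟩ * (φ a * φ d + φ c * φ b)

/-- task J3 -/
def T_J3 : Prop := T_J1 → ∀ (a b c d : ℝ) (e : ℂ), 0 < e.im → 0 < a → 0 < d →
  ((0 < b ∧ 0 < c) ∨ (b = 0 ∧ c = 0)) →
  ∀ z : ℂ, ∃! m : ℤ × ℤ, z - m.1 * (a + b * e) - m.2 * (-c + d * e) ∈ F0 a b c d e

/-- task K4 -/
def T_K4 : Prop := T_K0 → ∀ G : Subgroup (ℂ ≃ᵢ ℂ), Coco G → (∃ r ∈ G, orderOf r = 4) →
  ∃ v : ℂ, v ≠ 0 ∧ tr v ∈ G ∧ tr (Complex.I * v) ∈ G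

/-- task K3 -/
def T_K3 : Prop := T_K0 → ∀ G : Subgroup (ℂ ≃ᵢ ℂ), Coco G → (∃ r ∈ G, orderOf r = 3) →
  ∃ v : ℂ, v ≠ 0 ∧ tr v ∈ G ∧ tr (e3 * v) ∈ G

/-- task S -/
def T_S : Prop := (∀ v : ℂ, v ≠ 0 → ∃ (k : ℕ) (x y : ℝ), 0 < x ∧ 0 ≤ y ∧ Complex.I ^ k * v = x + y * Complex.I) ∧
  (∀ v : ℂ, v ≠ 0 → ∃ (k : ℕ) (x y : ℝ), 0 < x ∧ 0 ≤ y ∧ e3 ^ k * v = x + y * e3)

/-- task L: there are wallpaper groups with elements of order 4 and 3 -/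
def T_L : Prop := (∃ G : Subgroup (ℂ ≃ᵢ ℂ), IsWallpaper G ∧ ∃ g ∈ G, orderOf g = 4) ∧
  (∃ G : Subgroup (ℂ ≃ᵢ ℂ), IsWallpaper G ∧ ∃ g ∈ G, orderOf g = 3)

end

end H74R2.WT
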